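import Pool.Agent.W192.CY.Stneb
import Pool.Agent.W804.CY.NCoef
import Pool.Agent.W597.CY.TwistN
import Pool.Agent.W216.CY.Div
import Pool.Agent.TH936.HK.AFE
import Pool.Agent.W440.TW.Twist

/-!
# Euler product and approximate functional equation, weight `2m` with nebentypus (helper17)

Adapted from `Pool.Agent.W138.WO.EUL` and `Pool.Agent.W435.WO.AFE`.
-/

set_option autoImplicit false

open Complex Filter Topology Set UpperHalfPlane MatrixGroups CongruenceSubgroup ZMod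

namespace Pool.Agent.L5helper17.NF

open Pool.Agent.W192.CY (cf NInv NNewf N_TWIST N_AFE N_EUL N_COEF Vk)
open Pool.Agent.W440.TW

theorem natCast_pow_cpow (n e : ℕ) (s : ℂ) : ((n : ℂ) ^ e) ^ s = ((n : ℂ) ^ s) ^ e := by
  induction e with
  | zero => simp
  | succ e ih =>
    rw [pow_succ, pow_succ, ← ih, ← Nat.cast_pow, Complex.natCast_mul_natCast_cpow]

theorem n_eul (h : N_COEF) : N_EUL := by
  intro m hm N _ η g w hg q χ s hs
  obtain ⟨μ, hμ⟩ := h m hm N η g w hg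
  set l : ℕ → ℂ := cf g with hl
  have hm1 : (1 : ℝ) ≤ m := by exact_mod_cast hm
  have h1 : l 1 = 1 := hg.one
  have hlm : ∀ a b : ℕ, Nat.Coprime a b → l (a * b) = l a * l b := hg.mul
  have hlp : ∀ p j : ℕ, p.Prime → l (p ^ (j + 2)) = l p * l (p ^ (j + 1)) -
    η (p : ZMod N) * (p : ℂ) ^ (2 * m - 1) * l (p ^ j) := hg.pow
  have hs0 : s ≠ 0 := by
    rintro rfl
    simp at hs
    linarith
  set δ : ℝ := (s.re - (m + 1 / 2)) / 2 with hδ
  have hδ0 : 0 < δ := by rw [hδ]; linarith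
  obtain ⟨C, hC0, hC⟩ := Pool.Agent.W216.CY.divisor_bound δ hδ0
  have hlb : ∀ n : ℕ, 1 ≤ n → ‖l n‖ ≤ C * (n : ℝ) ^ (δ + (m - 1 / 2)) := by
    intro n hn
    have hnpos : (0 : ℝ) < n := by exact_mod_cast hn
    have h2 := hμ.cle n hn
    rw [norm_div, norm_pow, Complex.norm_natCast, div_le_iff₀ (by positivity)] at h2
    have h3 := hC n (by omega)
    refine h2.trans ?_
    have h4 : Real.sqrt n * (n : ℝ) ^ (m - 1) = (n : ℝ) ^ ((m : ℝ) - 1 / 2) := by
      rw [Real.sqrt_eq_rpow, ← Real.rpow_natCast, ← Real.rpow_add hnpos]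
      congr 1
      rw [Nat.cast_sub hm]
      push_cast
      ring
    rw [mul_assoc, h4, Real.rpow_add hnpos, ← mul_assoc]
    exact mul_le_mul_of_nonneg_right h3 (by positivity)
  have hsum : Summable (fun n : ℕ => ‖χ (n : ZMod q) * l n * (n : ℂ) ^ (-s)‖) := by
    have hs2 : Summable (fun n : ℕ => C * (n : ℝ) ^ (-1 - δ)) :=
      (Real.summable_nat_rpow.mpr (by linarith)).mul_left C
    refine Summable.of_nonneg_of_le (fun n => norm_nonneg _) (fun n => ?_) hs2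
    rcases Nat.eq_zero_or_pos n with hn | hn
    · subst hn
      rw [Nat.cast_zero, Nat.cast_zero, Complex.zero_cpow (by simpa using hs0)]
      simp only [mul_zero, norm_zero]
      positivity
    · have hnpos : (0 : ℝ) < n := by exact_mod_cast hn
      rw [norm_mul, norm_mul]
      have h2 : ‖χ (n : ZMod q)‖ ≤ 1 := DirichletCharacter.norm_le_one χ _
      have h3 : ‖(n : ℂ) ^ (-s)‖ = (n : ℝ) ^ (-s.re) := by
        rw [← Complex.ofReal_natCast, Complex.norm_cpow_eq_rpow_re_of_pos hnpos]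
        simp
      rw [h3]
      calc ‖χ (n : ZMod q)‖ * ‖l n‖ * (n : ℝ) ^ (-s.re) ≤
            1 * (C * (n : ℝ) ^ (δ + (m - 1 / 2))) * (n : ℝ) ^ (-s.re) := by
            gcongr
            exact hlb n hn
        _ = C * (n : ℝ) ^ (-1 - δ) := by
            rw [one_mul, mul_assoc, ← Real.rpow_add hnpos]
            congr 2
            rw [hδ]; ring
  refine ⟨hsum, ?_⟩
  set f : ℕ → ℂ := fun n => χ (n : ZMod q) * l n * (n : ℂ) ^ (-s) with hf
  have hf1 : f 1 = 1 := by simp [hf, h1]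
  have hf0 : f 0 = 0 := by
    simp only [hf]
    rw [Nat.cast_zero, Nat.cast_zero, Complex.zero_cpow (by simpa using hs0), mul_zero]
  have hmul : ∀ {m n : ℕ}, Nat.Coprime m n → f (m * n) = f m * f n := by
    intro m n hmn
    simp only [hf]
    rw [hlm m n hmn]
    rw [Nat.cast_mul, map_mul, Nat.cast_mul, Complex.natCast_mul_natCast_cpow]
    ring
  have hprod := EulerProduct.eulerProduct_hasProd hf1 hmul hsum hf0
  have hterm : ∀ p : Nat.Primes, ∑' e : ℕ, f ((p : ℕ) ^ e) =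
      (1 - χ ((p : ℕ) : ZMod q) * l p * ((p : ℕ) : ℂ) ^ (-s) +
      χ ((p : ℕ) : ZMod q) ^ 2 * η ((p : ℕ) : ZMod N) *
        ((p : ℕ) : ℂ) ^ (2 * (m : ℂ) - 1 - 2 * s))⁻¹ := by
    intro p
    have hp1 : 1 < (p : ℕ) := p.2.one_lt
    have hp0 : ((p : ℕ) : ℂ) ≠ 0 := by exact_mod_cast p.2.ne_zero
    have hsp : Summable (fun e : ℕ => f ((p : ℕ) ^ e)) :=
      (Summable.of_norm hsum).comp_injective (Nat.pow_right_injective hp1)
    set X : ℂ := χ ((p : ℕ) : ZMod q) * ((p : ℕ) : ℂ) ^ (-s) with hX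
    set E : ℂ := η ((p : ℕ) : ZMod N) * ((p : ℕ) : ℂ) ^ (2 * m - 1) with hE
    have hpow : ∀ e : ℕ, f ((p : ℕ) ^ e) = l ((p : ℕ) ^ e) * X ^ e := by
      intro e
      simp only [hf]
      rw [Nat.cast_pow, map_pow, Nat.cast_pow, hX, mul_pow]
      rw [natCast_pow_cpow]
      ring
    have hX2 : χ ((p : ℕ) : ZMod q) ^ 2 * η ((p : ℕ) : ZMod N) *
        ((p : ℕ) : ℂ) ^ (2 * (m : ℂ) - 1 - 2 * s) = E * X ^ 2 := by
      have e1 : (2 * (m : ℂ) - 1 - 2 * s) = ((2 * m - 1 : ℕ) : ℂ) + (2 : ℕ) * (-s) := by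
        rw [Nat.cast_sub (by omega)]
        push_cast
        ring
      rw [e1, Complex.cpow_add _ _ hp0, Complex.cpow_natCast, Complex.cpow_nat_mul, hX, hE]
      ring
    have hr : ∀ e : ℕ, f ((p : ℕ) ^ (e + 2)) =
        l p * X * f ((p : ℕ) ^ (e + 1)) - E * X ^ 2 * f ((p : ℕ) ^ e) := by
      intro e
      have h' := hlp p e p.2
      rw [hpow, hpow, hpow, h', hE]
      ring
    set S : ℂ := ∑' e : ℕ, f ((p : ℕ) ^ e) with hS
    have hs1 : S = 1 + ∑' e : ℕ, f ((p : ℕ) ^ (e + 1)) := by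
      rw [hS, hsp.tsum_eq_zero_add]
      simp [hf1]
    have hsp1 : Summable (fun e : ℕ => f ((p : ℕ) ^ (e + 1))) :=
      (summable_nat_add_iff 1).mpr hsp
    have hs2 : S = 1 + l p * X + ∑' e : ℕ, f ((p : ℕ) ^ (e + 2)) := by
      rw [hs1, hsp1.tsum_eq_zero_add]
      have : f ((p : ℕ) ^ (0 + 1)) = l p * X := by
        rw [hpow]
        simp
      rw [this]
      ring_nf
    have hs3 : ∑' e : ℕ, f ((p : ℕ) ^ (e + 2)) =
        l p * X * ∑' e : ℕ, f ((p : ℕ) ^ (e + 1)) - E * X ^ 2 * S := by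
      rw [hS, ← tsum_mul_left, ← tsum_mul_left, ← (hsp1.mul_left _).tsum_sub (hsp.mul_left _)]
      exact tsum_congr hr
    have hs4 : ∑' e : ℕ, f ((p : ℕ) ^ (e + 1)) = S - 1 := by rw [hs1]; ring
    have hfin : S * (1 - l p * X + E * X ^ 2) = 1 := by
      rw [hs3, hs4] at hs2
      linear_combination hs2
    rw [hX2]
    rw [show 1 - χ ((p : ℕ) : ZMod q) * l p * ((p : ℕ) : ℂ) ^ (-s) + E * X ^ 2 =
      1 - l p * X + E * X ^ 2 by
      rw [hX]; ring]
    exact eq_inv_of_mul_eq_one_left hfin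
  have hfun : (fun p : Nat.Primes => ∑' e : ℕ, f ((p : ℕ) ^ e)) = (fun p : Nat.Primes =>
      (1 - χ ((p : ℕ) : ZMod q) * l p * ((p : ℕ) : ℂ) ^ (-s) +
      χ ((p : ℕ) : ZMod q) ^ 2 * η ((p : ℕ) : ZMod N) *
        ((p : ℕ) : ℂ) ^ (2 * (m : ℂ) - 1 - 2 * s))⁻¹) := funext hterm
  rw [hfun] at hprod
  exact hprod

lemma cf_zero {N : ℕ} {k : ℤ} (f : CuspForm (Gamma1 N : Subgroup (GL (Fin 2) ℝ)) k) :
    cf f 0 = 0 := by
  have h1 : (1 : ℝ) ∈ (Gamma1 N : Subgroup (GL (Fin 2) ℝ)).strictPeriods := by simp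
  exact CuspFormClass.qExpansion_coeff_zero (Γ := (Gamma1 N : Subgroup (GL (Fin 2) ℝ)))
    (k := k) f one_pos h1

/-- polynomial bound for the coefficients -/
lemma cf_bound (h2 : N_EUL) (m : ℕ) (hm : 1 ≤ m) (N : ℕ) [NeZero N] (η : DirichletCharacter ℂ N)
    (f : CuspForm (Gamma1 N : Subgroup (GL (Fin 2) ℝ)) (2 * m : ℤ)) (w : ℂ)
    (hf : NNewf m N η f w) : ∃ C : ℝ, ∀ (q : ℕ) (χ : DirichletCharacter ℂ q) (n : ℕ), 1 ≤ n →
      ‖χ (n : ZMod q) * cf f n‖ ≤ C * (n : ℝ) ^ ((m : ℝ) + 1) := by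
  have hs := (h2 m hm N η f w hf 1 1 ((((m : ℝ) + 1 : ℝ)) : ℂ)
    (by rw [Complex.ofReal_re]; linarith)).1
  have hone : ∀ n : ℕ, (1 : DirichletCharacter ℂ 1) (n : ZMod 1) = 1 := by
    intro n
    have h3 : (n : ZMod 1) = 1 := Subsingleton.elim _ _
    rw [h3, map_one]
  refine ⟨∑' n : ℕ, ‖(1 : DirichletCharacter ℂ 1) (n : ZMod 1) * cf f n *
    (n : ℂ) ^ (-((((m : ℝ) + 1 : ℝ)) : ℂ))‖, fun q χ n hn => ?_⟩
  have hn' : (0 : ℝ) < n := by exact_mod_cast hn
  have h3 := hs.le_tsum n (fun j _ => norm_nonneg _)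
  have h4 : ‖(n : ℂ) ^ (-((((m : ℝ) + 1 : ℝ)) : ℂ))‖ = (n : ℝ) ^ (-((m : ℝ) + 1)) := by
    have := Complex.norm_cpow_eq_rpow_re_of_pos hn' (-((((m : ℝ) + 1 : ℝ)) : ℂ))
    rw [Complex.ofReal_natCast] at this
    rw [this, Complex.neg_re, Complex.ofReal_re]
  rw [norm_mul, h4, hone n, one_mul] at h3
  have h5 : (n : ℝ) ^ (-((m : ℝ) + 1)) * (n : ℝ) ^ ((m : ℝ) + 1) = 1 := by
    rw [← Real.rpow_add hn', neg_add_cancel, Real.rpow_zero]
  calc ‖χ (n : ZMod q) * cf f n‖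
      ≤ 1 * ‖cf f n‖ := by
        rw [norm_mul]
        exact mul_le_mul_of_nonneg_right (DirichletCharacter.norm_le_one χ _) (norm_nonneg _)
    _ = ‖cf f n‖ * (n : ℝ) ^ (-((m : ℝ) + 1)) * (n : ℝ) ^ ((m : ℝ) + 1) := by
        rw [mul_assoc, h5, mul_one, one_mul]
    _ ≤ _ := mul_le_mul_of_nonneg_right h3 (by positivity)

theorem n_afe (h1 : N_TWIST) (h2 : N_EUL) : N_AFE := by
  intro m hm N _ η f w hf q _ χ hco hpr
  have hm1 : (1 : ℝ) ≤ m := by exact_mod_cast hm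
  have hNn : 0 < N := Nat.pos_of_ne_zero (NeZero.ne N)
  have hN : (0 : ℝ) < N := by exact_mod_cast hNn
  have hq : (0 : ℝ) < q := by exact_mod_cast Nat.pos_of_ne_zero (NeZero.ne q)
  have hsN : 0 < Real.sqrt N := Real.sqrt_pos.2 hN
  have hc0 : cf f 0 = 0 := cf_zero f
  have hsum0 : ∀ s : ℂ, (m : ℝ) + 1 / 2 < s.re →
      Summable (fun n : ℕ => ‖χ (n : ZMod q) * cf f n * (n : ℂ) ^ (-s)‖) :=
    fun s hs => (h2 m hm N η f w hf q χ s hs).1
  obtain ⟨C, hC'⟩ := cf_bound h2 m hm N η f w hf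
  have hC := hC' q χ
  set R : ℝ := Real.sqrt N * q with hR
  have hRp : 0 < R := by positivity
  set W : ℂ := (w * η (q : ZMod N)) * χ (N : ZMod q) * gaussSum χ (stdAddChar (N := q)) ^ 2 / q
    with hW
  have hW0 : W ≠ 0 := by
    have g1 : w ≠ 0 := by
      intro h
      have := hf.norm
      rw [h, norm_zero] at this
      exact zero_ne_one this
    have g1' : η (q : ZMod N) ≠ 0 := by
      have hu : IsUnit (q : ZMod N) := (ZMod.isUnit_iff_coprime q N).2 hco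
      exact (hu.map η).ne_zero
    have g2 : χ (N : ZMod q) ≠ 0 := by
      have hu : IsUnit (N : ZMod q) := (ZMod.isUnit_iff_coprime N q).2 hco.symm
      exact (hu.map χ).ne_zero
    have g3 := gauss_ne_zero χ hpr
    have g4 : (q : ℂ) ≠ 0 := Nat.cast_ne_zero.2 (NeZero.ne q)
    rw [hW]
    exact div_ne_zero (mul_ne_zero (mul_ne_zero (mul_ne_zero g1 g1') g2) (pow_ne_zero 2 g3)) g4
  obtain ⟨F, hFd, hFs, hFc⟩ := Pool.Agent.TH936.HK.mellinK m hm
    (b := fun n => χ (n : ZMod q) * cf f n)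
    (m := (m : ℝ) + 1) (C := C) hRp (by rw [hc0, mul_zero])
    (by linarith) hC hW0
    (fun t ht => h1 m hm N η f w hf q χ hco hpr t ht)
  refine ⟨F, hFd, fun s hs => ?_, fun X Y hX hY hXY => ?_⟩
  · refine Pool.Agent.TH936.HK.ext_series F hFd (fun n => χ (n : ZMod q) * cf f n) ?_ _ hsum0
      ((m : ℝ) + 1 + 2) (fun s hs => hFs s hs) s hs
    simp only [hc0, mul_zero]
  · have hXY' : X * Y = R ^ 2 / (4 * Real.pi ^ 2) := by
      rw [hXY, hR, mul_pow, Real.sq_sqrt hN.le]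
    rw [hFc X Y hX hY hXY']
    have hpw : ∀ n : ℕ, 0 < n → (n : ℂ) ^ m = (n : ℂ) ^ (m - 1) * n := by
      intro n _
      rw [← pow_succ]
      congr 1
      omega
    congr 1
    · refine tsum_congr fun n => ?_
      rcases Nat.eq_zero_or_pos n with rfl | hn
      · simp only [hc0]; simp
      · have hn' : (n : ℂ) ≠ 0 := by exact_mod_cast hn.ne'
        rw [hpw n hn]
        field_simp
    · congr 1
      refine tsum_congr fun n => ?_
      rcases Nat.eq_zero_or_pos n with rfl | hn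
      · simp only [hc0]; simp
      · have hn' : (n : ℂ) ≠ 0 := by exact_mod_cast hn.ne'
        rw [map_mul, hpw n hn, map_div₀, map_pow, Complex.conj_natCast]
        field_simp

end Pool.Agent.L5helper17.NF
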