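import Pool.Agent.L5helper17.NF.Prim

/-!
# The cocycle of a differential form (helper17)

`pull γ F` is the pull back of the form `F(z) dz` under `γ`, and
`Rr F γ = G F (γ z) - G (pull γ F) z` (independent of `z`) is the integral of `F(z) dz` from `i∞` to
`γ (i∞)`.
-/

set_option autoImplicit false

open Complex Filter Topology Set MeasureTheory Matrix.SpecialLinearGroup
open scoped MatrixGroups

namespace Pool.Agent.L5helper17.NF

/-- `c z + d` -/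
noncomputable def den (γ : SL(2, ℤ)) (z : ℂ) : ℂ := ((γ 1 0 : ℤ) : ℂ) * z + ((γ 1 1 : ℤ) : ℂ)

/-- `a z + b` -/
noncomputable def nu (γ : SL(2, ℤ)) (z : ℂ) : ℂ := ((γ 0 0 : ℤ) : ℂ) * z + ((γ 0 1 : ℤ) : ℂ)

/-- `(a z + b) / (c z + d)` -/
noncomputable def mob (γ : SL(2, ℤ)) (z : ℂ) : ℂ := nu γ z / den γ z

/-- the pull back of `F(z) dz` -/
noncomputable def pull (γ : SL(2, ℤ)) (F : ℂ → ℂ) (z : ℂ) : ℂ := F (mob γ z) * (den γ z ^ 2)⁻¹

lemma det_int (γ : SL(2, ℤ)) : γ 0 0 * γ 1 1 - γ 0 1 * γ 1 0 = 1 := by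
  have := γ.2
  rw [Matrix.det_fin_two] at this
  exact this

lemma det_c (γ : SL(2, ℤ)) :
    ((γ 0 0 : ℤ) : ℂ) * ((γ 1 1 : ℤ) : ℂ) - ((γ 0 1 : ℤ) : ℂ) * ((γ 1 0 : ℤ) : ℂ) = 1 := by
  exact_mod_cast congrArg (fun x : ℤ => (x : ℂ)) (det_int γ)

lemma det_r (γ : SL(2, ℤ)) :
    ((γ 0 0 : ℤ) : ℝ) * ((γ 1 1 : ℤ) : ℝ) - ((γ 0 1 : ℤ) : ℝ) * ((γ 1 0 : ℤ) : ℝ) = 1 := by
  exact_mod_cast congrArg (fun x : ℤ => (x : ℝ)) (det_int γ)

lemma den_ne (γ : SL(2, ℤ)) {z : ℂ} (hz : 0 < z.im) : den γ z ≠ 0 := by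
  intro h
  have h1 : (den γ z).im = ((γ 1 0 : ℤ) : ℝ) * z.im := by simp [den]
  have h2 : (den γ z).re = ((γ 1 0 : ℤ) : ℝ) * z.re + ((γ 1 1 : ℤ) : ℝ) := by simp [den]
  rw [h] at h1 h2
  simp only [Complex.zero_im, Complex.zero_re] at h1 h2
  have h3 : ((γ 1 0 : ℤ) : ℝ) = 0 := by
    rcases mul_eq_zero.1 h1.symm with h | h
    · exact h
    · exact absurd h hz.ne'
  have h4 := det_r γ
  rw [h3] at h2 h4
  simp only [zero_mul, zero_add, mul_zero, sub_zero] at h2 h4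
  rw [← h2] at h4
  simp at h4

lemma mob_im (γ : SL(2, ℤ)) (z : ℂ) : (mob γ z).im = z.im / Complex.normSq (den γ z) := by
  unfold mob
  rw [Complex.div_im]
  have h1 : (den γ z).im = ((γ 1 0 : ℤ) : ℝ) * z.im := by simp [den]
  have h2 : (den γ z).re = ((γ 1 0 : ℤ) : ℝ) * z.re + ((γ 1 1 : ℤ) : ℝ) := by simp [den]
  have h3 : (nu γ z).im = ((γ 0 0 : ℤ) : ℝ) * z.im := by simp [nu]
  have h4 : (nu γ z).re = ((γ 0 0 : ℤ) : ℝ) * z.re + ((γ 0 1 : ℤ) : ℝ) := by simp [nu]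
  rw [h1, h2, h3, h4, ← sub_div]
  congr 1
  have h5 := det_r γ
  linear_combination z.im * h5

lemma mob_pos (γ : SL(2, ℤ)) {z : ℂ} (hz : 0 < z.im) : 0 < (mob γ z).im := by
  rw [mob_im]
  exact div_pos hz (Complex.normSq_pos.2 (den_ne γ hz))

lemma mul_entries (γ δ : SL(2, ℤ)) :
    (γ * δ) 0 0 = γ 0 0 * δ 0 0 + γ 0 1 * δ 1 0 ∧ (γ * δ) 0 1 = γ 0 0 * δ 0 1 + γ 0 1 * δ 1 1 ∧
    (γ * δ) 1 0 = γ 1 0 * δ 0 0 + γ 1 1 * δ 1 0 ∧ (γ * δ) 1 1 = γ 1 0 * δ 0 1 + γ 1 1 * δ 1 1 := by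
  refine ⟨?_, ?_, ?_, ?_⟩ <;>
    simp [Matrix.SpecialLinearGroup.coe_mul, Matrix.mul_apply, Fin.sum_univ_two]

lemma den_mul (γ δ : SL(2, ℤ)) {z : ℂ} (hz : 0 < z.im) :
    den (γ * δ) z = den γ (mob δ z) * den δ z := by
  obtain ⟨-, -, h3, h4⟩ := mul_entries γ δ
  have hd := den_ne δ hz
  have e : den γ (mob δ z) * den δ z = ((γ 1 0 : ℤ) : ℂ) * nu δ z + ((γ 1 1 : ℤ) : ℂ) * den δ z := by
    unfold mob
    conv_lhs => unfold den
    rw [show (((δ 1 0 : ℤ) : ℂ) * z + ((δ 1 1 : ℤ) : ℂ)) = den δ z from rfl]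
    field_simp
  rw [e]
  unfold den nu
  rw [h3, h4]
  push_cast
  ring

lemma nu_mul (γ δ : SL(2, ℤ)) {z : ℂ} (hz : 0 < z.im) :
    nu (γ * δ) z = nu γ (mob δ z) * den δ z := by
  obtain ⟨h1, h2, -, -⟩ := mul_entries γ δ
  have hd := den_ne δ hz
  have e : nu γ (mob δ z) * den δ z = ((γ 0 0 : ℤ) : ℂ) * nu δ z + ((γ 0 1 : ℤ) : ℂ) * den δ z := by
    unfold mob
    conv_lhs => rw [nu]
    field_simp
  rw [e]
  unfold den nu
  rw [h1, h2]
  push_cast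
  ring

lemma mob_mul (γ δ : SL(2, ℤ)) {z : ℂ} (hz : 0 < z.im) : mob (γ * δ) z = mob γ (mob δ z) := by
  have hd := den_ne δ hz
  unfold mob
  rw [den_mul γ δ hz, nu_mul γ δ hz]
  exact mul_div_mul_right _ _ hd

lemma pull_mul (γ δ : SL(2, ℤ)) (F : ℂ → ℂ) {z : ℂ} (hz : 0 < z.im) :
    pull (γ * δ) F z = pull δ (pull γ F) z := by
  unfold pull
  rw [mob_mul γ δ hz, den_mul γ δ hz, mul_pow, mul_inv, ← mul_assoc]

lemma mob_one (z : ℂ) : mob 1 z = z := by simp [mob, nu, den]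

lemma pull_one (F : ℂ → ℂ) (z : ℂ) : pull 1 F z = F z := by
  unfold pull
  rw [mob_one]
  simp [den]

lemma hasDerivAt_mob (γ : SL(2, ℤ)) {z : ℂ} (hz : 0 < z.im) :
    HasDerivAt (mob γ) ((den γ z ^ 2)⁻¹) z := by
  have hd := den_ne γ hz
  have h1 : HasDerivAt (nu γ) ((γ 0 0 : ℤ) : ℂ) z := by
    unfold nu
    simpa using ((hasDerivAt_id z).const_mul ((γ 0 0 : ℤ) : ℂ)).add_const ((γ 0 1 : ℤ) : ℂ)
  have h2 : HasDerivAt (den γ) ((γ 1 0 : ℤ) : ℂ) z := by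
    unfold den
    simpa using ((hasDerivAt_id z).const_mul ((γ 1 0 : ℤ) : ℂ)).add_const ((γ 1 1 : ℤ) : ℂ)
  have h3 := h1.div h2 hd
  have h4 : (((γ 0 0 : ℤ) : ℂ) * den γ z - nu γ z * ((γ 1 0 : ℤ) : ℂ)) / den γ z ^ 2 =
      (den γ z ^ 2)⁻¹ := by
    have h5 : ((γ 0 0 : ℤ) : ℂ) * den γ z - nu γ z * ((γ 1 0 : ℤ) : ℂ) = 1 := by
      unfold den nu
      linear_combination det_c γ
    rw [h5, one_div]
  rw [h4] at h3
  exact h3

lemma G_congr {F F' : ℂ → ℂ} (h : ∀ z : ℂ, 0 < z.im → F z = F' z) {z : ℂ} (hz : 0 < z.im) :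
    G F z = G F' z := by
  unfold G
  congr 1
  refine setIntegral_congr_fun measurableSet_Ioi fun t ht => h _ ?_
  have ht' : (0 : ℝ) < t := ht
  rw [im_add_mul_I]
  linarith

/-- the period of `F(z) dz` from `i∞` to `γ (i∞)` -/
noncomputable def Rr (F : ℂ → ℂ) (γ : SL(2, ℤ)) : ℂ :=
  G F (mob γ Complex.I) - G (pull γ F) Complex.I

theorem Rr_spec {F : ℂ → ℂ} {γ : SL(2, ℤ)} (hF : Good F) (hP : Good (pull γ F)) {z : ℂ}
    (hz : 0 < z.im) : G F (mob γ z) - G (pull γ F) z = Rr F γ := by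
  have hd : ∀ z ∈ {z : ℂ | 0 < z.im},
      HasDerivAt (fun z => G F (mob γ z) - G (pull γ F) z) 0 z := by
    intro z hz
    have h1 := (hF.hasDerivAt (mob_pos γ hz)).comp z (hasDerivAt_mob γ hz)
    have h2 := hP.hasDerivAt hz
    have h3 := h1.sub h2
    have h4 : F (mob γ z) * (den γ z ^ 2)⁻¹ - pull γ F z = 0 := by
      unfold pull; ring
    rw [h4] at h3
    exact h3
  obtain ⟨a, ha⟩ := isOpen_uhp.exists_is_const_of_deriv_eq_zero
    (convex_halfSpace_im_gt 0).isPreconnected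
    (fun z hz => (hd z hz).differentiableAt.differentiableWithinAt)
    (fun z hz => (hd z hz).deriv)
  have h1 := ha z hz
  have h2 := ha Complex.I (by simp)
  rw [h1]
  unfold Rr
  rw [h2]

lemma Rr_one (F : ℂ → ℂ) : Rr F 1 = 0 := by
  unfold Rr
  rw [mob_one, G_congr (F := pull 1 F) (F' := F) (fun z _ => pull_one F z) (by simp)]
  ring

theorem Rr_mul {F : ℂ → ℂ} {γ δ : SL(2, ℤ)} (hF : Good F) (h1 : Good (pull γ F)) :
    Rr F (γ * δ) = Rr F γ + Rr (pull γ F) δ := by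
  have hI : 0 < Complex.I.im := by simp
  have e1 : Rr F (γ * δ) = G F (mob γ (mob δ Complex.I)) - G (pull δ (pull γ F)) Complex.I := by
    unfold Rr
    rw [mob_mul γ δ hI, G_congr (fun z hz => pull_mul γ δ F hz) hI]
  have e2 := Rr_spec hF h1 (mob_pos δ hI)
  have e3 : Rr (pull γ F) δ = G (pull γ F) (mob δ Complex.I) - G (pull δ (pull γ F)) Complex.I := rfl
  rw [e1, ← e2, e3]
  ring

lemma T_entries : (ModularGroup.T : SL(2, ℤ)) 0 0 = 1 ∧ (ModularGroup.T : SL(2, ℤ)) 0 1 = 1 ∧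
    (ModularGroup.T : SL(2, ℤ)) 1 0 = 0 ∧ (ModularGroup.T : SL(2, ℤ)) 1 1 = 1 := by
  refine ⟨?_, ?_, ?_, ?_⟩ <;> simp [ModularGroup.T]

lemma Rr_T (F : ℂ → ℂ) : Rr F ModularGroup.T = 0 := by
  obtain ⟨h1, h2, h3, h4⟩ := T_entries
  have e1 : ∀ z : ℂ, mob ModularGroup.T z = z + 1 := by
    intro z
    unfold mob nu den
    rw [h1, h2, h3, h4]
    simp
  have e2 : ∀ z : ℂ, pull ModularGroup.T F z = F (z + 1) := by
    intro z
    unfold pull
    rw [e1]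
    unfold den
    rw [h3, h4]
    simp
  unfold Rr
  rw [e1]
  unfold G
  have e3 : ∀ t : ℝ, pull ModularGroup.T F (Complex.I + t * Complex.I) =
      F (Complex.I + 1 + t * Complex.I) := by
    intro t
    rw [e2]
    congr 1
    ring
  simp_rw [e3]
  ring

/-- linearity -/
lemma Good.add {F F' : ℂ → ℂ} (h : Good F) (h' : Good F') : Good (fun z => F z + F' z) := by
  refine ⟨h.diff.add h'.diff, ?_⟩
  obtain ⟨c, hc, h1⟩ := h.dec
  obtain ⟨c', hc', h1'⟩ := h'.dec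
  refine ⟨min c c', lt_min hc hc', fun R hR => ?_⟩
  obtain ⟨C, hC, h2⟩ := h1 R hR
  obtain ⟨C', hC', h2'⟩ := h1' R hR
  refine ⟨C + C', by positivity, fun z h3 h4 => ?_⟩
  have hz : 0 ≤ z.im := le_trans (by positivity) h4
  refine (norm_add_le _ _).trans ?_
  rw [add_mul]
  refine add_le_add ((h2 z h3 h4).trans ?_) ((h2' z h3 h4).trans ?_)
  · refine mul_le_mul_of_nonneg_left (Real.exp_le_exp.2 ?_) hC.le
    nlinarith [min_le_left c c']
  · refine mul_le_mul_of_nonneg_left (Real.exp_le_exp.2 ?_) hC'.le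
    nlinarith [min_le_right c c']

lemma Good.const_mul {F : ℂ → ℂ} (h : Good F) (a : ℂ) : Good (fun z => a * F z) := by
  refine ⟨h.diff.const_mul a, ?_⟩
  obtain ⟨c, hc, h1⟩ := h.dec
  refine ⟨c, hc, fun R hR => ?_⟩
  obtain ⟨C, hC, h2⟩ := h1 R hR
  refine ⟨(‖a‖ + 1) * C, by positivity, fun z h3 h4 => ?_⟩
  rw [norm_mul, mul_assoc]
  refine mul_le_mul (by linarith) (h2 z h3 h4) (norm_nonneg _) (by positivity)

lemma G_add {F F' : ℂ → ℂ} (h : Good F) (h' : Good F') {z : ℂ} (hz : 0 < z.im) :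
    G (fun z => F z + F' z) z = G F z + G F' z := by
  unfold G
  rw [integral_add (h.intLine hz) (h'.intLine hz)]
  ring

lemma G_const_mul (F : ℂ → ℂ) (a : ℂ) (z : ℂ) : G (fun z => a * F z) z = a * G F z := by
  unfold G
  rw [integral_const_mul]
  ring

lemma Rr_add {F F' : ℂ → ℂ} {γ : SL(2, ℤ)} (h : Good F) (h' : Good F') (hp : Good (pull γ F))
    (hp' : Good (pull γ F')) :
    Rr (fun z => F z + F' z) γ = Rr F γ + Rr F' γ := by
  have hI : 0 < Complex.I.im := by simp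
  unfold Rr
  rw [G_add h h' (mob_pos γ hI)]
  have e : ∀ z : ℂ, 0 < z.im → pull γ (fun z => F z + F' z) z = pull γ F z + pull γ F' z := by
    intro z _
    unfold pull
    ring
  rw [G_congr e hI, G_add hp hp' hI]
  ring

lemma Rr_const_mul (F : ℂ → ℂ) (a : ℂ) (γ : SL(2, ℤ)) :
    Rr (fun z => a * F z) γ = a * Rr F γ := by
  unfold Rr
  rw [G_const_mul]
  have e : pull γ (fun z => a * F z) = fun z => a * pull γ F z := by
    funext z
    unfold pull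
    ring
  rw [e, G_const_mul]
  ring

lemma Rr_congr {F F' : ℂ → ℂ} (h : ∀ z : ℂ, 0 < z.im → F z = F' z) (γ : SL(2, ℤ)) :
    Rr F γ = Rr F' γ := by
  have hI : 0 < Complex.I.im := by simp
  unfold Rr
  rw [G_congr h (mob_pos γ hI), G_congr (F := pull γ F) (F' := pull γ F') (fun z hz => by
    unfold pull
    rw [h _ (mob_pos γ hz)]) hI]

lemma Good.congr {F F' : ℂ → ℂ} (hF : Good F) (h : ∀ z : ℂ, 0 < z.im → F' z = F z) : Good F' := by
  refine ⟨hF.diff.congr h, ?_⟩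
  obtain ⟨c, hc, h1⟩ := hF.dec
  refine ⟨c, hc, fun R hR => ?_⟩
  obtain ⟨C, hC, h2⟩ := h1 R hR
  refine ⟨C, hC, fun z h3 h4 => ?_⟩
  rw [h z (lt_of_lt_of_le (by positivity) h4)]
  exact h2 z h3 h4

/-- the value near the cusp `a / c` -/
theorem Rr_lim {F : ℂ → ℂ} {γ : SL(2, ℤ)} (hF : Good F) (hP : Good (pull γ F))
    (hc : 0 < γ 1 0) :
    Tendsto (fun y : ℝ => G F (((γ 0 0 : ℤ) / (γ 1 0 : ℤ) : ℝ) + y * Complex.I)) (𝓝[>] 0)
      (𝓝 (Rr F γ)) := by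
  set a : ℝ := ((γ 0 0 : ℤ) : ℝ) with ha
  set b : ℝ := ((γ 0 1 : ℤ) : ℝ) with hb
  set c : ℝ := ((γ 1 0 : ℤ) : ℝ) with hc'
  set d : ℝ := ((γ 1 1 : ℤ) : ℝ) with hd
  have hc0 : 0 < c := by
    rw [hc']; exact_mod_cast hc
  have hdet : a * d - b * c = 1 := det_r γ
  have h1 : Tendsto (fun y : ℝ => (c ^ 2 * y)⁻¹) (𝓝[>] 0) atTop := by
    refine tendsto_inv_nhdsGT_zero.comp ?_
    rw [tendsto_nhdsWithin_iff]
    constructor
    · have : Tendsto (fun y : ℝ => c ^ 2 * y) (𝓝 0) (𝓝 (c ^ 2 * 0)) :=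
        (continuous_const.mul continuous_id).tendsto 0
      rw [mul_zero] at this
      exact this.mono_left nhdsWithin_le_nhds
    · filter_upwards [self_mem_nhdsWithin] with y hy
      have hy' : (0 : ℝ) < y := hy
      show (0 : ℝ) < c ^ 2 * y
      positivity
  have h2 := (hP.tendsto (-d / c)).comp h1
  have h3 := h2.add_const (Rr F γ)
  rw [zero_add] at h3
  refine h3.congr' ?_
  filter_upwards [self_mem_nhdsWithin] with y hy
  have hy' : (0 : ℝ) < y := hy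
  set z : ℂ := ((-d / c : ℝ) : ℂ) + (((c ^ 2 * y)⁻¹ : ℝ) : ℂ) * Complex.I with hz
  have hzi : 0 < z.im := by
    have e0 : z.im = (c ^ 2 * y)⁻¹ := by
      rw [hz]
      simp only [Complex.add_im, Complex.ofReal_im, Complex.mul_im, Complex.ofReal_re,
        Complex.I_im, Complex.I_re, mul_one, mul_zero, add_zero, zero_add]
    rw [e0]
    positivity
  have h4 := Rr_spec hF hP hzi
  have h5 : mob γ z = ((a / c : ℝ) : ℂ) + y * Complex.I := by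
    have hd2 : den γ z = (((c * y)⁻¹ : ℝ) : ℂ) * Complex.I := by
      unfold den
      rw [hz]
      have e1 : ((γ 1 0 : ℤ) : ℂ) = (c : ℂ) := by rw [hc']; push_cast; rfl
      have e2 : ((γ 1 1 : ℤ) : ℂ) = (d : ℂ) := by rw [hd]; push_cast; rfl
      rw [e1, e2]
      have hcc : (c : ℂ) ≠ 0 := by exact_mod_cast hc0.ne'
      have hyc : (y : ℂ) ≠ 0 := by exact_mod_cast hy'.ne'
      push_cast
      field_simp
      ring
    unfold mob
    rw [div_eq_iff (den_ne γ hzi), hd2]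
    unfold nu
    rw [hz]
    have e1 : ((γ 0 0 : ℤ) : ℂ) = (a : ℂ) := by rw [ha]; push_cast; rfl
    have e2 : ((γ 0 1 : ℤ) : ℂ) = (b : ℂ) := by rw [hb]; push_cast; rfl
    rw [e1, e2]
    have hcc : (c : ℂ) ≠ 0 := by exact_mod_cast hc0.ne'
    have hyc : (y : ℂ) ≠ 0 := by exact_mod_cast hy'.ne'
    have hdetc : (a : ℂ) * d - b * c = 1 := by exact_mod_cast congrArg (fun x : ℝ => (x : ℂ)) hdet
    push_cast
    field_simp
    linear_combination (-(c : ℂ) * y) * hdetc - (c : ℂ) * y * Complex.I_sq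
  show G (pull γ F) z + Rr F γ = _
  rw [← h4, h5]
  ring

end Pool.Agent.L5helper17.NF
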