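import Pool.Agent.L5helper17.NF.Coc

/-!
# Cusp forms times polynomials (helper17)

Functions `z ↦ (f ∣[k] g)(z) z^j`, `j ≤ k - 2`, are holomorphic on the upper half-plane, decay
exponentially in vertical strips, and are permuted (up to integral linear combinations) by the pull
backs `pull γ`.
-/

set_option autoImplicit false

open Complex Filter Topology Set MeasureTheory UpperHalfPlane Matrix.SpecialLinearGroup
open scoped MatrixGroups ModularForm CongruenceSubgroup Pointwise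

namespace Pool.Agent.L5helper17.NF

open CongruenceSubgroup

variable {N : ℕ} {k : ℤ}

/-- `f ∣[k] g` as a function of a complex variable -/
noncomputable def cus (f : CuspForm (Gamma1 N : Subgroup (GL (Fin 2) ℝ)) k) (g : SL(2, ℤ)) (z : ℂ) :
    ℂ :=
  ((f : ℍ → ℂ) ∣[k] g) (ofComplex z)

lemma mob_eq (γ : SL(2, ℤ)) {z : ℂ} (hz : 0 < z.im) :
    mob γ z = ((γ • (ofComplex z) : ℍ) : ℂ) := by
  rw [ModularGroup.sl_moeb, UpperHalfPlane.coe_smul_of_det_pos (by simp)]
  rw [UpperHalfPlane.ofComplex_apply_of_im_pos hz]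
  simp [mob, nu, den, UpperHalfPlane.num, UpperHalfPlane.denom]

lemma cus_mul (f : CuspForm (Gamma1 N : Subgroup (GL (Fin 2) ℝ)) k) (g γ : SL(2, ℤ)) {z : ℂ}
    (hz : 0 < z.im) : cus f g (mob γ z) * (den γ z) ^ (-k) = cus f (g * γ) z := by
  have h1 : cus f (g * γ) z = ((f : ℍ → ℂ) ∣[k] g) (γ • (ofComplex z)) *
      denom γ (ofComplex z) ^ (-k) := by
    unfold cus
    rw [SlashAction.slash_mul]
    exact ModularForm.SL_slash_apply (f := (f : ℍ → ℂ) ∣[k] g) γ (ofComplex z)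
  have h2 : den γ z = denom γ (ofComplex z) := by
    rw [UpperHalfPlane.ofComplex_apply_of_im_pos hz]
    simp [den, UpperHalfPlane.denom]
  have h3 : cus f g (mob γ z) = ((f : ℍ → ℂ) ∣[k] g) (γ • (ofComplex z)) := by
    unfold cus
    rw [mob_eq γ hz, ofComplex_apply]
  rw [h1, h2, h3]

lemma cus_one (f : CuspForm (Gamma1 N : Subgroup (GL (Fin 2) ℝ)) k) (z : ℂ) :
    cus f 1 z = f (ofComplex z) := by
  unfold cus
  rw [SlashAction.slash_one]

lemma cus_diff (f : CuspForm (Gamma1 N : Subgroup (GL (Fin 2) ℝ)) k) (g : SL(2, ℤ)) :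
    DifferentiableOn ℂ (cus f g) {z : ℂ | 0 < z.im} := by
  have h := (CuspForm.translate f (g : GL (Fin 2) ℝ)).holo'
  exact UpperHalfPlane.mdifferentiable_iff.1 h

lemma cus_dec [NeZero N] (f : CuspForm (Gamma1 N : Subgroup (GL (Fin 2) ℝ)) k) (g : SL(2, ℤ)) :
    Dec (cus f g) := by
  have : ((ConjAct.toConjAct (g : GL (Fin 2) ℝ)⁻¹) •
      (Gamma1 N : Subgroup (GL (Fin 2) ℝ))).IsArithmetic := by
    simpa [(show Rat.castHom ℝ = algebraMap ℚ ℝ by rfl), map_inv, map_mapGL]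
      using! Subgroup.IsArithmetic.conj (Gamma1 N : Subgroup (GL (Fin 2) ℝ)) (mapGL ℚ g)⁻¹
  obtain ⟨c, hc, h⟩ := CuspFormClass.exp_decay_atImInfty' (CuspForm.translate f (g : GL (Fin 2) ℝ))
  refine ⟨c, hc, fun R hR => ?_⟩
  obtain ⟨C, hC⟩ := h.bound
  obtain ⟨A, hA⟩ := (UpperHalfPlane.atImInfty_mem _).1 hC
  have hcomp : IsCompact ({z : ℂ | |z.re| ≤ R ∧ R⁻¹ ≤ z.im ∧ z.im ≤ A}) := by
    have h1 : {z : ℂ | |z.re| ≤ R ∧ R⁻¹ ≤ z.im ∧ z.im ≤ A} = Set.Icc (-R) R ×ℂ Set.Icc R⁻¹ A := by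
      ext z
      simp [Complex.mem_reProdIm, abs_le]
    rw [h1]
    exact isCompact_Icc.reProdIm isCompact_Icc
  obtain ⟨B, hB⟩ := hcomp.exists_bound_of_continuousOn
    ((cus_diff f g).continuousOn.mono (fun z hz => by
      have hz' : |z.re| ≤ R ∧ R⁻¹ ≤ z.im ∧ z.im ≤ A := hz
      exact lt_of_lt_of_le (inv_pos.2 hR) hz'.2.1))
  refine ⟨|C| + |B| * Real.exp (c * |A|) + 1, by positivity, fun z h1 h2 => ?_⟩
  have hz : 0 < z.im := lt_of_lt_of_le (inv_pos.2 hR) h2
  rcases le_total z.im A with h3 | h3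
  · have h4 := hB z ⟨h1, h2, h3⟩
    calc ‖cus f g z‖ ≤ |B| := h4.trans (le_abs_self B)
      _ = |B| * Real.exp (c * |A|) * Real.exp (-(c * |A|)) := by
          rw [mul_assoc, ← Real.exp_add]
          simp
      _ ≤ |B| * Real.exp (c * |A|) * Real.exp (-(c * z.im)) := by
          refine mul_le_mul_of_nonneg_left (Real.exp_le_exp.2 ?_) (by positivity)
          have : z.im ≤ |A| := h3.trans (le_abs_self A)
          nlinarith
      _ ≤ _ := by
          refine mul_le_mul_of_nonneg_right ?_ (Real.exp_pos _).le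
          have := abs_nonneg C
          linarith
  · have h4 := hA ⟨z, hz⟩ h3
    have h5 : cus f g z = (CuspForm.translate f (g : GL (Fin 2) ℝ)) ⟨z, hz⟩ := by
      unfold cus
      rw [UpperHalfPlane.ofComplex_apply_of_im_pos hz]
      rfl
    rw [h5]
    have h6 : ‖(CuspForm.translate f (g : GL (Fin 2) ℝ)) ⟨z, hz⟩‖ ≤
        C * ‖Real.exp (-c * (⟨z, hz⟩ : ℍ).im)‖ := h4
    refine h6.trans ?_
    rw [Real.norm_of_nonneg (Real.exp_pos _).le]
    have h7 : -c * (⟨z, hz⟩ : ℍ).im = -(c * z.im) := by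
      rw [neg_mul]
      rfl
    rw [h7]
    refine mul_le_mul_of_nonneg_right ?_ (Real.exp_pos _).le
    have h8 := le_abs_self C
    have h9 : 0 ≤ |B| * Real.exp (c * |A|) := by positivity
    linarith

/-- multiplication by `z^j` keeps `Good` -/
lemma Dec.mul_pow {F : ℂ → ℂ} (h : Dec F) (j : ℕ) : Dec (fun z => F z * z ^ j) := by
  obtain ⟨c, hc, h1⟩ := h
  refine ⟨c / 2, by positivity, fun R hR => ?_⟩
  obtain ⟨C, hC, h2⟩ := h1 R hR
  have hlim : Tendsto (fun y : ℝ => (R + y) ^ j * Real.exp (-(c / 2 * y))) atTop (𝓝 0) := by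
    have h3 : Tendsto (fun y : ℝ => (R + y) ^ j * Real.exp (-(c / 2) * (R + y))) atTop (𝓝 0) := by
      have h4 := (Real.tendsto_pow_mul_exp_neg_atTop_nhds_zero j)
      have h5 : Tendsto (fun y : ℝ => (c / 2) * (R + y)) atTop atTop :=
        Tendsto.const_mul_atTop (by positivity) (tendsto_atTop_add_const_left _ _ tendsto_id)
      have h6 := (h4.comp h5).const_mul (((c / 2) ^ j)⁻¹)
      rw [mul_zero] at h6
      refine h6.congr fun y => ?_
      have : (c / 2) ^ j ≠ 0 := by positivity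
      simp only [Function.comp]
      rw [_root_.mul_pow]
      field_simp
    have h4 := h3.const_mul (Real.exp (c / 2 * R))
    rw [mul_zero] at h4
    refine h4.congr fun y => ?_
    rw [mul_left_comm, ← Real.exp_add]
    congr 2
    ring
  obtain ⟨B, hB⟩ : ∃ B : ℝ, ∀ y : ℝ, 0 ≤ y → (R + y) ^ j * Real.exp (-(c / 2 * y)) ≤ B := by
    have h3 := (hlim.eventually (gt_mem_nhds (zero_lt_one' ℝ)))
    obtain ⟨A, hA⟩ := eventually_atTop.1 h3
    have hcont : Continuous (fun y : ℝ => (R + y) ^ j * Real.exp (-(c / 2 * y))) := by fun_prop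
    obtain ⟨B, hB⟩ := (isCompact_Icc (a := (0 : ℝ)) (b := A)).exists_bound_of_continuousOn
      hcont.continuousOn
    refine ⟨max B 1, fun y hy => ?_⟩
    rcases le_total y A with h4 | h4
    · exact (le_abs_self _).trans ((hB y ⟨hy, h4⟩).trans (le_max_left _ _))
    · exact (hA y h4).le.trans (le_max_right _ _)
  refine ⟨C * (|B| + 1), by positivity, fun z h3 h4 => ?_⟩
  have hz : 0 < z.im := lt_of_lt_of_le (inv_pos.2 hR) h4
  have h5 := h2 z h3 h4
  have h6 : ‖z‖ ≤ R + z.im := by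
    have := Complex.norm_le_abs_re_add_abs_im z
    rw [abs_of_pos hz] at this
    linarith
  rw [norm_mul, norm_pow]
  calc ‖F z‖ * ‖z‖ ^ j ≤ (C * Real.exp (-(c * z.im))) * (R + z.im) ^ j := by
        refine mul_le_mul h5 (pow_le_pow_left₀ (norm_nonneg _) h6 j) (by positivity) (by positivity)
    _ = C * ((R + z.im) ^ j * Real.exp (-(c / 2 * z.im))) * Real.exp (-(c / 2 * z.im)) := by
        have : Real.exp (-(c * z.im)) = Real.exp (-(c / 2 * z.im)) * Real.exp (-(c / 2 * z.im)) := by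
          rw [← Real.exp_add]
          congr 1
          ring
        rw [this]
        ring
    _ ≤ C * (|B| + 1) * Real.exp (-(c / 2 * z.im)) := by
        refine mul_le_mul_of_nonneg_right (mul_le_mul_of_nonneg_left ?_ hC.le) (Real.exp_pos _).le
        have := hB z.im hz.le
        linarith [le_abs_self B]

/-- the basic functions -/
noncomputable def bas (f : CuspForm (Gamma1 N : Subgroup (GL (Fin 2) ℝ)) k) (g : SL(2, ℤ)) (j : ℕ)
    (z : ℂ) : ℂ := cus f g z * z ^ j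

lemma bas_good [NeZero N] (f : CuspForm (Gamma1 N : Subgroup (GL (Fin 2) ℝ)) k) (g : SL(2, ℤ))
    (j : ℕ) : Good (bas f g j) :=
  ⟨(cus_diff f g).mul (by fun_prop), (cus_dec f g).mul_pow j⟩

/-- the additive group generated by the basic functions -/
def MM (f : CuspForm (Gamma1 N : Subgroup (GL (Fin 2) ℝ)) k) (n : ℕ) : AddSubgroup (ℂ → ℂ) :=
  AddSubgroup.closure {H | ∃ g : SL(2, ℤ), ∃ j : ℕ, j ≤ n ∧ H = bas f g j}

/-- equal on the upper half-plane to an element of `MM` -/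
def IsM (f : CuspForm (Gamma1 N : Subgroup (GL (Fin 2) ℝ)) k) (n : ℕ) (H : ℂ → ℂ) : Prop :=
  ∃ H' ∈ MM f n, ∀ z : ℂ, 0 < z.im → H z = H' z

lemma MM_good [NeZero N] (f : CuspForm (Gamma1 N : Subgroup (GL (Fin 2) ℝ)) k) (n : ℕ)
    {H : ℂ → ℂ} (hH : H ∈ MM f n) : Good H := by
  refine AddSubgroup.closure_induction (p := fun H _ => Good H) ?_ ?_ ?_ ?_ hH
  · rintro x ⟨g, j, -, rfl⟩
    exact bas_good f g j
  · have := (bas_good f 1 0).const_mul 0
    refine this.congr fun z _ => by simp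
  · intro x y _ _ hx hy
    exact hx.add hy
  · intro x _ hx
    exact (hx.const_mul (-1)).congr fun z _ => by simp

lemma IsM.good [NeZero N] {f : CuspForm (Gamma1 N : Subgroup (GL (Fin 2) ℝ)) k} {n : ℕ}
    {H : ℂ → ℂ} (hH : IsM f n H) : Good H := by
  obtain ⟨H', h1, h2⟩ := hH
  exact (MM_good f n h1).congr h2

lemma IsM.add {f : CuspForm (Gamma1 N : Subgroup (GL (Fin 2) ℝ)) k} {n : ℕ}
    {H K : ℂ → ℂ} (hH : IsM f n H) (hK : IsM f n K) : IsM f n (fun z => H z + K z) := by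
  obtain ⟨H', h1, h2⟩ := hH
  obtain ⟨K', h3, h4⟩ := hK
  refine ⟨H' + K', (MM f n).add_mem h1 h3, fun z hz => ?_⟩
  show H z + K z = H' z + K' z
  rw [h2 z hz, h4 z hz]

lemma IsM.neg {f : CuspForm (Gamma1 N : Subgroup (GL (Fin 2) ℝ)) k} {n : ℕ}
    {H : ℂ → ℂ} (hH : IsM f n H) : IsM f n (fun z => - H z) := by
  obtain ⟨H', h1, h2⟩ := hH
  refine ⟨-H', (MM f n).neg_mem h1, fun z hz => ?_⟩
  show - H z = - H' z
  rw [h2 z hz]

/-- an integral polynomial of degree at most `n` times `f ∣[k] g` -/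
lemma isM_poly (f : CuspForm (Gamma1 N : Subgroup (GL (Fin 2) ℝ)) k) (n : ℕ) (g : SL(2, ℤ))
    (P : Polynomial ℤ) (hP : P.natDegree ≤ n) :
    IsM f n (fun z => cus f g z * (P.eval₂ (Int.castRingHom ℂ) z)) := by
  refine ⟨∑ j ∈ Finset.range (n + 1), P.coeff j • bas f g j, ?_, ?_⟩
  · refine AddSubgroup.sum_mem _ fun j hj => AddSubgroup.zsmul_mem _ ?_ _
    exact AddSubgroup.subset_closure ⟨g, j, by simpa [Nat.lt_succ_iff] using hj, rfl⟩
  · intro z _
    show cus f g z * (P.eval₂ (Int.castRingHom ℂ) z) = _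
    rw [Polynomial.eval₂_eq_sum_range' (Int.castRingHom ℂ) (Nat.lt_succ_of_le hP) z,
      Finset.mul_sum, Finset.sum_apply]
    refine Finset.sum_congr rfl fun j _ => ?_
    simp [bas]
    ring

/-- the pull back of a basic function -/
lemma pull_bas (f : CuspForm (Gamma1 N : Subgroup (GL (Fin 2) ℝ)) k) (n : ℕ) (hk : k = n + 2)
    (g γ : SL(2, ℤ)) (j : ℕ) (hj : j ≤ n) : IsM f n (pull γ (bas f g j)) := by
  set P : Polynomial ℤ := (Polynomial.C (γ 0 0) * Polynomial.X + Polynomial.C (γ 0 1)) ^ j *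
    (Polynomial.C (γ 1 0) * Polynomial.X + Polynomial.C (γ 1 1)) ^ (n - j) with hP
  have hdeg : P.natDegree ≤ n := by
    refine Polynomial.natDegree_mul_le.trans ?_
    have h1 : ((Polynomial.C (γ 0 0) * Polynomial.X + Polynomial.C (γ 0 1)) ^ j).natDegree ≤ j := by
      refine Polynomial.natDegree_pow_le.trans ?_
      calc _ ≤ j * 1 := Nat.mul_le_mul_left j Polynomial.natDegree_linear_le
        _ = j := mul_one j
    have h2 : ((Polynomial.C (γ 1 0) * Polynomial.X + Polynomial.C (γ 1 1)) ^ (n - j)).natDegree ≤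
        n - j := by
      refine Polynomial.natDegree_pow_le.trans ?_
      calc _ ≤ (n - j) * 1 := Nat.mul_le_mul_left _ Polynomial.natDegree_linear_le
        _ = n - j := mul_one _
    omega
  obtain ⟨H', h1, h2⟩ := isM_poly f n (g * γ) P hdeg
  refine ⟨H', h1, fun z hz => ?_⟩
  rw [← h2 z hz]
  show pull γ (bas f g j) z = cus f (g * γ) z * (P.eval₂ (Int.castRingHom ℂ) z)
  have hd := den_ne γ hz
  have h3 : P.eval₂ (Int.castRingHom ℂ) z = nu γ z ^ j * den γ z ^ (n - j) := by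
    rw [hP]
    rw [Polynomial.eval₂_mul, Polynomial.eval₂_pow, Polynomial.eval₂_pow, Polynomial.eval₂_add,
      Polynomial.eval₂_add, Polynomial.eval₂_mul, Polynomial.eval₂_mul, Polynomial.eval₂_C,
      Polynomial.eval₂_C, Polynomial.eval₂_C, Polynomial.eval₂_C, Polynomial.eval₂_X]
    rfl
  rw [h3, ← cus_mul f g γ hz]
  unfold pull bas mob
  rw [div_pow]
  have h4 : den γ z ^ (-k) = ((den γ z) ^ (n + 2))⁻¹ := by
    rw [hk, zpow_neg]
    congr 1
  have h5 : (den γ z) ^ (n + 2) = den γ z ^ j * den γ z ^ (n - j) * den γ z ^ 2 := by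
    rw [← pow_add, ← pow_add]
    congr 1
    omega
  rw [h4, h5]
  field_simp

lemma IsM.congr {f : CuspForm (Gamma1 N : Subgroup (GL (Fin 2) ℝ)) k} {n : ℕ}
    {H K : ℂ → ℂ} (hH : IsM f n H) (h : ∀ z : ℂ, 0 < z.im → K z = H z) : IsM f n K := by
  obtain ⟨H', h1, h2⟩ := hH
  exact ⟨H', h1, fun z hz => by rw [h z hz, h2 z hz]⟩

lemma isM_zero (f : CuspForm (Gamma1 N : Subgroup (GL (Fin 2) ℝ)) k) (n : ℕ) :
    IsM f n (fun _ => 0) := ⟨0, (MM f n).zero_mem, fun _ _ => rfl⟩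

lemma pull_MM (f : CuspForm (Gamma1 N : Subgroup (GL (Fin 2) ℝ)) k) (n : ℕ) (hk : k = n + 2)
    (γ : SL(2, ℤ)) {H : ℂ → ℂ} (hH : H ∈ MM f n) : IsM f n (pull γ H) := by
  refine AddSubgroup.closure_induction (p := fun H _ => IsM f n (pull γ H)) ?_ ?_ ?_ ?_ hH
  · rintro x ⟨g, j, hj, rfl⟩
    exact pull_bas f n hk g γ j hj
  · refine (isM_zero f n).congr fun z _ => ?_
    simp [pull]
  · intro x y _ _ hx hy
    refine (hx.add hy).congr fun z _ => ?_
    simp [pull]
    ring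
  · intro x _ hx
    refine hx.neg.congr fun z _ => ?_
    simp [pull]

lemma IsM.pull {f : CuspForm (Gamma1 N : Subgroup (GL (Fin 2) ℝ)) k} {n : ℕ} (hk : k = n + 2)
    {H : ℂ → ℂ} (hH : IsM f n H) (γ : SL(2, ℤ)) : IsM f n (pull γ H) := by
  obtain ⟨H', h1, h2⟩ := hH
  refine (pull_MM f n hk γ h1).congr fun z hz => ?_
  unfold NF.pull
  rw [h2 _ (mob_pos γ hz)]

end Pool.Agent.L5helper17.NF
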