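import Pool.Agent.L5helper17.NF.Cusp

/-!
# Finite generation of the periods (helper17)
-/

set_option autoImplicit false

open Complex Filter Topology Set MeasureTheory UpperHalfPlane Matrix.SpecialLinearGroup
open scoped MatrixGroups ModularForm CongruenceSubgroup Pointwise

namespace Pool.Agent.L5helper17.NF

open CongruenceSubgroup

variable {N : ℕ} {k : ℤ}

lemma cus_inv (f : CuspForm (Gamma1 N : Subgroup (GL (Fin 2) ℝ)) k) {γ : SL(2, ℤ)}
    (hγ : γ ∈ Gamma1 N) (g : SL(2, ℤ)) : cus f (γ * g) = cus f g := by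
  funext z
  unfold cus
  rw [SlashAction.slash_mul]
  have h : (f : ℍ → ℂ) ∣[k] γ = f :=
    SlashInvariantFormClass.slash_action_eq f (γ : GL (Fin 2) ℝ) (Subgroup.mem_map_of_mem _ hγ)
  rw [h]

lemma cus_fin [NeZero N] (f : CuspForm (Gamma1 N : Subgroup (GL (Fin 2) ℝ)) k) :
    (Set.range (cus f)).Finite := by
  have hq : Finite (SL(2, ℤ) ⧸ Gamma1 N) := Subgroup.finite_quotient_of_finiteIndex
  let h : SL(2, ℤ) ⧸ Gamma1 N → (ℂ → ℂ) := Quotient.lift (fun g => cus f g⁻¹) fun a b hab => by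
    have h1 : a⁻¹ * b ∈ Gamma1 N := by
      rw [← Quotient.eq_iff_equiv, Quotient.eq, QuotientGroup.leftRel_apply] at hab
      exact hab
    have h2 := cus_inv f ((Gamma1 N).inv_mem h1) a⁻¹
    rw [← h2]
    simp
  refine (Set.finite_range h).subset ?_
  rintro _ ⟨g, rfl⟩
  refine ⟨(g⁻¹ : SL(2, ℤ)), ?_⟩
  show cus f (g⁻¹)⁻¹ = cus f g
  rw [inv_inv]

theorem fg [NeZero N] (f : CuspForm (Gamma1 N : Subgroup (GL (Fin 2) ℝ)) k) (n : ℕ)
    (hk : k = n + 2) : ∃ s : Set ℂ, s.Finite ∧ ∀ H : ℂ → ℂ, IsM f n H → ∀ γ : SL(2, ℤ),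
      Rr H γ ∈ AddSubgroup.closure s := by
  set s : Set ℂ := (fun p : (ℂ → ℂ) × ℕ => Rr (fun z => p.1 z * z ^ p.2) ModularGroup.S) ''
    ((Set.range (cus f)) ×ˢ (Set.Iic n)) with hs
  refine ⟨s, ((cus_fin f).prod (Set.finite_Iic n)).image _, ?_⟩
  have hS : ∀ H : ℂ → ℂ, IsM f n H → Rr H ModularGroup.S ∈ AddSubgroup.closure s := by
    rintro H ⟨H', h1, h2⟩
    rw [Rr_congr h2]
    refine AddSubgroup.closure_induction
      (p := fun H _ => Rr H ModularGroup.S ∈ AddSubgroup.closure s) ?_ ?_ ?_ ?_ h1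
    · rintro x ⟨g, j, hj, rfl⟩
      refine AddSubgroup.subset_closure ?_
      exact ⟨(cus f g, j), ⟨⟨g, rfl⟩, hj⟩, rfl⟩
    · have h3 : Rr (0 : ℂ → ℂ) ModularGroup.S = 0 := by
        have := Rr_const_mul (0 : ℂ → ℂ) 0 ModularGroup.S
        simp only [zero_mul] at this
        exact this
      rw [h3]
      exact AddSubgroup.zero_mem _
    · intro x y hx hy h3 h4
      have h5 := Rr_add (γ := ModularGroup.S) (MM_good f n hx) (MM_good f n hy)
        (pull_MM f n hk ModularGroup.S hx).good (pull_MM f n hk ModularGroup.S hy).good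
      have h6 : Rr (x + y) ModularGroup.S = Rr x ModularGroup.S + Rr y ModularGroup.S := h5
      rw [h6]
      exact AddSubgroup.add_mem _ h3 h4
    · intro x hx h3
      have h4 := Rr_const_mul x (-1) ModularGroup.S
      have h5 : Rr (-x) ModularGroup.S = - Rr x ModularGroup.S := by
        have h6 : (-x : ℂ → ℂ) = fun z => -1 * x z := by
          funext z
          simp
        rw [h6, h4]
        ring
      rw [h5]
      exact AddSubgroup.neg_mem _ h3
  let A : Subgroup SL(2, ℤ) :=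
    { carrier := {γ | ∀ H : ℂ → ℂ, IsM f n H → Rr H γ ∈ AddSubgroup.closure s}
      mul_mem' := by
        intro a b ha hb H hH
        rw [Rr_mul hH.good (hH.pull hk a).good]
        exact AddSubgroup.add_mem _ (ha H hH) (hb _ (hH.pull hk a))
      one_mem' := by
        intro H _
        rw [Rr_one]
        exact AddSubgroup.zero_mem _
      inv_mem' := by
        intro a ha H hH
        have h1 := Rr_mul (γ := a⁻¹) (δ := a) hH.good (hH.pull hk a⁻¹).good
        rw [inv_mul_cancel, Rr_one] at h1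
        have h2 : Rr H a⁻¹ = - Rr (pull a⁻¹ H) a := by linear_combination -h1
        rw [h2]
        exact AddSubgroup.neg_mem _ (ha _ (hH.pull hk a⁻¹)) }
  have hA : A = ⊤ := by
    rw [← top_le_iff, ← _root_.SpecialLinearGroup.SL2Z_generators, Subgroup.closure_le]
    intro γ hγ
    rcases hγ with rfl | hγ
    · exact fun H hH => hS H hH
    · rw [Set.mem_singleton_iff] at hγ
      subst hγ
      intro H _
      rw [Rr_T]
      exact AddSubgroup.zero_mem _
  intro H hH γ
  have h1 : γ ∈ A := by rw [hA]; trivial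
  exact h1 H hH

end Pool.Agent.L5helper17.NF
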