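import Mathlib

/-!
# Galois equivariance for twisted sums over a finitely generated group (helper17)
-/

set_option autoImplicit false

open Complex Polynomial

namespace Pool.Agent.L5helper17.NF

/-- the standard primitive root of unity -/
noncomputable def zt (n : ℕ) : ℂ := Complex.exp (2 * Real.pi * Complex.I / n)

lemma zt_prim {n : ℕ} (hn : n ≠ 0) : IsPrimitiveRoot (zt n) n := Complex.isPrimitiveRoot_exp n hn

lemma zt_pow {n m : ℕ} (hn : n ≠ 0) (hm : m ≠ 0) : zt (n * m) ^ m = zt n := by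
  unfold zt
  rw [← Complex.exp_nat_mul]
  congr 1
  have h1 : (n : ℂ) ≠ 0 := by exact_mod_cast hn
  have h2 : (m : ℂ) ≠ 0 := by exact_mod_cast hm
  push_cast
  field_simp

lemma gal1 {M : ℕ} (hM : M ≠ 0) {q : ℕ} [NeZero q] (χ : DirichletCharacter ℂ q) (k : ℕ)
    (hk : Nat.Coprime k (orderOf χ)) (hkM : k % M = 1 % M) (P : (ZMod q)ˣ → ℚ[X])
    (h : ∑ u : (ZMod q)ˣ, χ (u : ZMod q) * aeval (zt M) (P u) = 0) :
    ∑ u : (ZMod q)ˣ, (χ ^ k) (u : ZMod q) * aeval (zt M) (P u) = 0 := by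
  classical
  have hn : 0 < orderOf χ := orderOf_pos χ
  set n := orderOf χ with hndef
  have hn0 : n ≠ 0 := hn.ne'
  have hL0 : M * n ≠ 0 := mul_ne_zero hM hn0
  have hζ : IsPrimitiveRoot (zt (M * n)) (M * n) := zt_prim hL0
  set ζ := zt (M * n) with hζd
  have hζM : ζ ^ n = zt M := zt_pow hM hn0
  have hζn : ζ ^ M = zt n := by
    rw [hζd, mul_comm]
    exact zt_pow hn0 hM
  have hpow : ∀ u : (ZMod q)ˣ, ∃ j : ℕ, χ (u : ZMod q) = zt n ^ j := by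
    intro u
    have : NeZero n := ⟨hn0⟩
    have h1 : (χ (u : ZMod q)) ^ n = 1 := by
      have h2 : (χ ^ n) (u : ZMod q) = 1 := by
        rw [hndef, pow_orderOf_eq_one, MulChar.one_apply_coe]
      rwa [MulChar.pow_apply_coe] at h2
    obtain ⟨j, _, hj⟩ := (zt_prim hn0).eq_pow_of_pow_eq_one h1
    exact ⟨j, hj.symm⟩
  choose j hj using hpow
  set p : ℚ[X] := ∑ u : (ZMod q)ˣ, Polynomial.X ^ (M * j u) * (P u).comp (Polynomial.X ^ n) with hp
  have hev : ∀ z : ℂ, aeval z p = ∑ u : (ZMod q)ˣ, (z ^ M) ^ (j u) * aeval (z ^ n) (P u) := by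
    intro z
    rw [hp, map_sum]
    refine Finset.sum_congr rfl fun u _ => ?_
    rw [map_mul, map_pow, aeval_X, pow_mul, Polynomial.aeval_comp, map_pow, aeval_X]
  have h0 : aeval ζ p = 0 := by
    rw [hev, ← h]
    refine Finset.sum_congr rfl fun u _ => ?_
    rw [hj u, hζM, hζn]
  have hdvd : minpoly ℚ ζ ∣ p := minpoly.dvd ℚ ζ h0
  have hkM' : Nat.Coprime k M := by
    have h1 : Nat.gcd k M = Nat.gcd 1 M := Nat.ModEq.gcd_eq (show k ≡ 1 [MOD M] from hkM)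
    rw [Nat.gcd_one_left] at h1
    exact h1
  have hζk : IsPrimitiveRoot (ζ ^ k) (M * n) := hζ.pow_of_coprime k (hkM'.mul_right hk)
  have hmin : minpoly ℚ (ζ ^ k) = minpoly ℚ ζ := by
    rw [← Polynomial.cyclotomic_eq_minpoly_rat hζk (Nat.pos_of_ne_zero hL0),
      ← Polynomial.cyclotomic_eq_minpoly_rat hζ (Nat.pos_of_ne_zero hL0)]
  have h1 : aeval (ζ ^ k) p = 0 := by
    obtain ⟨g, hg⟩ := hdvd
    rw [hg, map_mul, ← hmin, minpoly.aeval, zero_mul]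
  have h2 : (ζ ^ k) ^ n = zt M := by
    rw [← pow_mul, mul_comm, pow_mul, hζM]
    have h3 : zt M ^ k = zt M ^ 1 := by
      rw [← pow_mod_orderOf, ← pow_mod_orderOf (zt M) 1, ← (zt_prim hM).eq_orderOf, hkM]
    rw [h3, pow_one]
  rw [hev, h2] at h1
  rw [← h1]
  refine Finset.sum_congr rfl fun u _ => ?_
  rw [MulChar.pow_apply_coe, hj u, ← hζn]
  congr 1
  rw [← pow_mul, ← pow_mul, ← pow_mul, ← pow_mul]
  congr 1
  ring

/-- all roots of unity -/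
def mu : Set ℂ := {z | ∃ n : ℕ, n ≠ 0 ∧ z ^ n = 1}

/-- the maximal cyclotomic field -/
noncomputable def Kc : IntermediateField ℚ ℂ := IntermediateField.adjoin ℚ mu

lemma mu_sub {z : ℂ} (hz : z ∈ mu) : z ∈ Kc := IntermediateField.subset_adjoin ℚ mu hz

lemma zt_mem {n : ℕ} (hn : n ≠ 0) : zt n ∈ Kc := mu_sub ⟨n, hn, (zt_prim hn).pow_eq_one⟩

/-- elements of `ℚ(ζ_M)` -/
def LM (M : ℕ) : Set ℂ := {x | ∃ P : ℚ[X], x = aeval (zt M) P}

lemma LM_mono {M m : ℕ} (hM : M ≠ 0) (hm : m ≠ 0) : LM M ⊆ LM (M * m) := by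
  rintro x ⟨P, rfl⟩
  refine ⟨P.comp (X ^ m), ?_⟩
  rw [aeval_comp, map_pow, aeval_X, zt_pow hM hm]

lemma LM_add {M : ℕ} {x y : ℂ} (hx : x ∈ LM M) (hy : y ∈ LM M) : x + y ∈ LM M := by
  obtain ⟨P, rfl⟩ := hx
  obtain ⟨Q, rfl⟩ := hy
  exact ⟨P + Q, by simp⟩

lemma LM_mul {M : ℕ} {x y : ℂ} (hx : x ∈ LM M) (hy : y ∈ LM M) : x * y ∈ LM M := by
  obtain ⟨P, rfl⟩ := hx
  obtain ⟨Q, rfl⟩ := hy
  exact ⟨P * Q, by simp⟩

lemma LM_neg {M : ℕ} {x : ℂ} (hx : x ∈ LM M) : -x ∈ LM M := by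
  obtain ⟨P, rfl⟩ := hx
  exact ⟨-P, by simp⟩

lemma LM_zero {M : ℕ} : (0 : ℂ) ∈ LM M := ⟨0, by simp⟩

lemma Kc_LM {x : ℂ} (hx : x ∈ Kc) : ∃ M : ℕ, M ≠ 0 ∧ x ∈ LM M := by
  have halg : ∀ z ∈ mu, IsAlgebraic ℚ z := by
    rintro z ⟨n, hn, hz⟩
    have h1 : IsIntegral ℤ z := by
      refine ⟨X ^ n - 1, monic_X_pow_sub_C 1 hn, ?_⟩
      simp [hz]
    exact (h1.tower_top (A := ℚ)).isAlgebraic
  have h1 : x ∈ Kc.toSubalgebra := hx
  unfold Kc at h1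
  rw [IntermediateField.adjoin_toSubalgebra_of_isAlgebraic halg] at h1
  refine Algebra.adjoin_induction (p := fun x _ => ∃ M : ℕ, M ≠ 0 ∧ x ∈ LM M) ?_ ?_ ?_ ?_ h1
  · rintro z ⟨n, hn, hz⟩
    have : NeZero n := ⟨hn⟩
    obtain ⟨j, -, hj⟩ := (zt_prim hn).eq_pow_of_pow_eq_one hz
    refine ⟨n, hn, X ^ j, ?_⟩
    rw [map_pow, aeval_X, hj]
  · intro r
    refine ⟨1, one_ne_zero, C r, ?_⟩
    rw [aeval_C]
  · rintro y z _ _ ⟨M, hM, hy⟩ ⟨M', hM', hz⟩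
    refine ⟨M * M', mul_ne_zero hM hM', LM_add (LM_mono hM hM' hy) ?_⟩
    rw [mul_comm]
    exact LM_mono hM' hM hz
  · rintro y z _ _ ⟨M, hM, hy⟩ ⟨M', hM', hz⟩
    refine ⟨M * M', mul_ne_zero hM hM', LM_mul (LM_mono hM hM' hy) ?_⟩
    rw [mul_comm]
    exact LM_mono hM' hM hz

lemma LM_Kc {M : ℕ} (hM : M ≠ 0) {x : ℂ} (hx : x ∈ LM M) : x ∈ Kc := by
  obtain ⟨P, rfl⟩ := hx
  have h : aeval (zt M) P ∈ Kc.toSubalgebra := by
    have h1 : zt M ∈ Kc.toSubalgebra := zt_mem hM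
    have h2 := (Kc.toSubalgebra.val).comp (aeval (⟨zt M, h1⟩ : Kc.toSubalgebra))
    have h3 : aeval (zt M) P = ((aeval (⟨zt M, h1⟩ : Kc.toSubalgebra) P : Kc.toSubalgebra) : ℂ) := by
      rw [← Subalgebra.coe_val, ← Polynomial.aeval_algHom_apply]
      rfl
    rw [h3]
    exact Subtype.mem _
  exact h

/-- a finitely generated group has coordinates in a cyclotomic field with respect to some family
which is linearly independent over the maximal cyclotomic field -/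
lemma coords (s : Set ℂ) (hs : s.Finite) : ∃ b : Finset ℂ, LinearIndependent Kc ((↑) : b → ℂ) ∧
    ∃ M : ℕ, M ≠ 0 ∧ ∀ x ∈ AddSubgroup.closure s, ∃ c : b → ℂ, (∀ i, c i ∈ LM M) ∧
      x = ∑ i, c i * (i : ℂ) := by
  classical
  obtain ⟨b0, hb0, hspan, hli⟩ := exists_linearIndependent Kc s
  have hbf : b0.Finite := hs.subset hb0
  refine ⟨hbf.toFinset, ?_, ?_⟩
  · have h := hli
    have h2 : ((hbf.toFinset : Finset ℂ) : Set ℂ) = b0 := hbf.coe_toFinset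
    rw [← h2] at h
    exact h
  · set b := hbf.toFinset with hb
    have h2 : ((b : Finset ℂ) : Set ℂ) = b0 := hbf.coe_toFinset
    -- the generators
    have hgen : ∀ x ∈ s, ∃ M : ℕ, M ≠ 0 ∧ ∃ c : b → ℂ, (∀ i, c i ∈ LM M) ∧
        x = ∑ i, c i * (i : ℂ) := by
      intro x hx
      have h3 : x ∈ Submodule.span Kc (Set.range ((↑) : b → ℂ)) := by
        have h4 : Set.range ((↑) : b → ℂ) = b0 := by
          rw [← h2]
          ext y
          simp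
        rw [h4, hspan]
        exact Submodule.subset_span hx
      rw [Submodule.mem_span_range_iff_exists_fun] at h3
      obtain ⟨c, hc⟩ := h3
      have h5 : ∀ i : b, ∃ M : ℕ, M ≠ 0 ∧ ((c i : Kc) : ℂ) ∈ LM M := fun i => Kc_LM (c i).2
      choose m hm1 hm2 using h5
      refine ⟨∏ i, m i, Finset.prod_ne_zero_iff.2 fun i _ => hm1 i, fun i => (c i : ℂ), fun i => ?_, ?_⟩
      · rw [← Finset.mul_prod_erase Finset.univ m (Finset.mem_univ i)]
        exact LM_mono (hm1 i) (Finset.prod_ne_zero_iff.2 fun j _ => hm1 j) (hm2 i)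
      · rw [← hc]
        rfl
    have hall : ∃ M : ℕ, M ≠ 0 ∧ ∀ x ∈ s, ∃ c : b → ℂ, (∀ i, c i ∈ LM M) ∧
        x = ∑ i, c i * (i : ℂ) := by
      choose m hm1 hm2 using hgen
      have := hs.fintype
      refine ⟨∏ x : s, m x.1 x.2, Finset.prod_ne_zero_iff.2 fun x _ => hm1 x.1 x.2, fun x hx => ?_⟩
      obtain ⟨c, hc1, hc2⟩ := hm2 x hx
      refine ⟨c, fun i => ?_, hc2⟩
      rw [← Finset.mul_prod_erase Finset.univ (fun x : s => m x.1 x.2)
        (Finset.mem_univ (⟨x, hx⟩ : s))]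
      exact LM_mono (hm1 x hx) (Finset.prod_ne_zero_iff.2 fun j _ => hm1 j.1 j.2) (hc1 i)
    obtain ⟨M, hM, hMs⟩ := hall
    refine ⟨M, hM, fun x hx => ?_⟩
    refine AddSubgroup.closure_induction (p := fun x _ => ∃ c : b → ℂ, (∀ i, c i ∈ LM M) ∧
      x = ∑ i, c i * (i : ℂ)) ?_ ?_ ?_ ?_ hx
    · exact fun x hx => hMs x hx
    · exact ⟨fun _ => 0, fun _ => LM_zero, by simp⟩
    · rintro x y _ _ ⟨c, h3, rfl⟩ ⟨c', h4, rfl⟩
      refine ⟨fun i => c i + c' i, fun i => LM_add (h3 i) (h4 i), ?_⟩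
      rw [← Finset.sum_add_distrib]
      exact Finset.sum_congr rfl fun i _ => by ring
    · rintro x _ ⟨c, h3, rfl⟩
      refine ⟨fun i => - c i, fun i => LM_neg (h3 i), ?_⟩
      rw [← Finset.sum_neg_distrib]
      exact Finset.sum_congr rfl fun i _ => by ring

/-- **Galois equivariance** -/
theorem gal (s : Set ℂ) (hs : s.Finite) : ∃ M : ℕ, M ≠ 0 ∧ ∀ (q : ℕ) [NeZero q]
    (χ : DirichletCharacter ℂ q) (w : (ZMod q)ˣ → ℂ), (∀ u, w u ∈ AddSubgroup.closure s) →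
    ∀ a : ℕ, Nat.Coprime a (orderOf χ) → a % M = 1 % M →
    ∑ u : (ZMod q)ˣ, χ (u : ZMod q) * w u = 0 →
    ∑ u : (ZMod q)ˣ, (χ ^ a) (u : ZMod q) * w u = 0 := by
  classical
  obtain ⟨b, hli, M, hM, hc⟩ := coords s hs
  refine ⟨M, hM, fun q _ χ w hw a ha haM h0 => ?_⟩
  have h1 : ∀ u, ∃ c : b → ℂ, (∀ i, c i ∈ LM M) ∧ w u = ∑ i, c i * (i : ℂ) := fun u => hc _ (hw u)
  choose c hc1 hc2 using h1
  have hsum : ∀ ψ : DirichletCharacter ℂ q, ∑ u : (ZMod q)ˣ, ψ (u : ZMod q) * w u =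
      ∑ i, (∑ u : (ZMod q)ˣ, ψ (u : ZMod q) * c u i) * (i : ℂ) := by
    intro ψ
    simp only [Finset.sum_mul]
    rw [Finset.sum_comm]
    refine Finset.sum_congr rfl fun u _ => ?_
    rw [hc2 u, Finset.mul_sum]
    exact Finset.sum_congr rfl fun i _ => by ring
  have hχ : ∀ u : (ZMod q)ˣ, χ (u : ZMod q) ∈ Kc := by
    intro u
    refine mu_sub ⟨orderOf χ, (orderOf_pos χ).ne', ?_⟩
    have h2 : (χ ^ orderOf χ) (u : ZMod q) = 1 := by
      rw [pow_orderOf_eq_one, MulChar.one_apply_coe]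
    rwa [MulChar.pow_apply_coe] at h2
  have hX : ∀ i, ∑ u : (ZMod q)ˣ, χ (u : ZMod q) * c u i ∈ Kc := fun i =>
    Kc.sum_mem fun u _ => Kc.mul_mem (hχ u) (LM_Kc hM (hc1 u i))
  have hz : ∀ i, ∑ u : (ZMod q)ˣ, χ (u : ZMod q) * c u i = 0 := by
    rw [hsum] at h0
    rw [Fintype.linearIndependent_iff] at hli
    have h3 := hli (fun i => (⟨_, hX i⟩ : Kc)) h0
    intro i
    have h4 := h3 i
    exact congrArg (fun x : Kc => (x : ℂ)) h4
  rw [hsum]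
  refine Finset.sum_eq_zero fun i _ => ?_
  have h5 : ∀ u, ∃ P : ℚ[X], c u i = aeval (zt M) P := fun u => hc1 u i
  choose P hP using h5
  have h6 := gal1 hM χ a ha haM P (by
    rw [← hz i]
    exact Finset.sum_congr rfl fun u _ => by rw [hP u])
  have h7 : ∑ u : (ZMod q)ˣ, (χ ^ a) (u : ZMod q) * c u i = 0 := by
    rw [← h6]
    exact Finset.sum_congr rfl fun u _ => by rw [hP u]
  rw [h7, zero_mul]

end Pool.Agent.L5helper17.NF
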