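import Pool.Agent.L5helper17.NF.Val
import Pool.Agent.L5helper17.NF.Bd
import Pool.Agent.TH940.Ord
import Pool.Agent.W192.WO.Parts
import Pool.Agent.W216.CY.Div
import Pool.Agent.W230.CY.Orth
import Pool.Agent.W74.CY.WPP
import Pool.Agent.W305.CY.Weil
import Pool.Agent.W143.CY.COUNT
import Pool.Agent.W736.CY.GTAIL
import Pool.Agent.W155.CY.MobM
import Pool.Agent.W976.CY.Kloom
import Pool.Agent.W82.WO.MainpW
import Pool.Agent.W753.WO.Dualp
import Pool.Agent.W471.WO.Finn

/-!
# The twists of a newform of weight `2m`: nonvanishing at the centre and a bound for the order of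
vanishing (helper17)
-/

set_option autoImplicit false

open Complex Filter Topology Set UpperHalfPlane MatrixGroups CongruenceSubgroup ZMod

namespace Pool.Agent.L5helper17.NF

open Pool.Agent.W192.CY (cf NInv NNewf N_TWIST N_AFE N_EUL N_COEF Vk)
open Pool.Agent.W192.WO (W_FINN)
open Pool.Agent.W440.TW

lemma wfinn : W_FINN := by
  have hdiv := Pool.Agent.W216.CY.t_div
  have horth := Pool.Agent.W230.CY.t_orth
  have hweil := Pool.Agent.W305.CY.t_weil Pool.Agent.W74.CY.wpp hdiv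
  have htail := Pool.Agent.W736.CY.GTAIL.t_gtail (Pool.Agent.W143.CY.g_count hdiv)
  have hmob := Pool.Agent.W155.CY.m_mob
  have hkloo := Pool.Agent.W976.CYKloom.m_kloo horth hweil
  have hmain := Pool.Agent.W82.WO.w_mainp hdiv horth hmob htail
  have hdual := Pool.Agent.W753.WO.w_dualp hdiv hmob hkloo
  exact Pool.Agent.W471.WO.w_finn hdiv hmob hmain hdual

/-- lower bound at a point of absolute convergence -/
lemma lower (m : ℕ) (hm : 1 ≤ m) {N : ℕ} {k : ℤ}
    (f : CuspForm (Gamma1 N : Subgroup (GL (Fin 2) ℝ)) k) {μ : ℕ → ℂ}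
    (hμ : NInv (fun n => cf f n / (n : ℂ) ^ (m - 1)) μ) : ∃ A : ℝ, 0 < A ∧
    ∀ (q : ℕ) (χ : DirichletCharacter ℂ q),
      A⁻¹ ≤ ‖∑' n : ℕ, χ (n : ZMod q) * cf f n * (n : ℂ) ^ (-((m : ℂ) + 3 / 2))‖ := by
  obtain ⟨C, hC0, hC⟩ := Pool.Agent.W216.CY.divisor_bound (1 / 2) (by norm_num)
  set T : ℝ := ∑' n : ℕ, C * (n : ℝ) ^ (-(3 / 2 : ℝ)) with hT
  have hTs : Summable (fun n : ℕ => C * (n : ℝ) ^ (-(3 / 2 : ℝ))) :=
    (Real.summable_nat_rpow.mpr (by norm_num)).mul_left C
  have hT0 : 0 ≤ T := tsum_nonneg fun n => by positivity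
  refine ⟨T + 1, by linarith, fun q χ => ?_⟩
  set c : ℕ → ℂ := fun n => cf f n / (n : ℂ) ^ (m - 1) with hc
  set a : ℕ → ℂ := fun n => χ (n : ZMod q) * c n with ha
  set b : ℕ → ℂ := fun n => χ (n : ZMod q) * μ n with hb
  have hterm : ∀ (u : ℕ → ℂ), (∀ n : ℕ, 1 ≤ n → ‖u n‖ ≤ n.divisors.card * Real.sqrt n) →
      ∀ n : ℕ, ‖LSeries.term (fun n => χ (n : ZMod q) * u n) (5 / 2) n‖ ≤
        C * (n : ℝ) ^ (-(3 / 2 : ℝ)) := by
    intro u hu n
    rcases Nat.eq_zero_or_pos n with rfl | hn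
    · rw [LSeries.term_zero, norm_zero]
      positivity
    · have hn0 : (0 : ℝ) < n := by exact_mod_cast hn
      rw [LSeries.term_of_ne_zero hn.ne', norm_div, norm_mul]
      have h1 := DirichletCharacter.norm_le_one χ (n : ZMod q)
      have h2 := hu n hn
      have h3 := hC n (by omega)
      have h4 : ‖(n : ℂ) ^ (5 / 2 : ℂ)‖ = (n : ℝ) ^ (5 / 2 : ℝ) := by
        have := Complex.norm_cpow_eq_rpow_re_of_pos hn0 (5 / 2 : ℂ)
        rw [Complex.ofReal_natCast] at this
        rw [this]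
        congr 1
        norm_num
      rw [h4, div_le_iff₀ (by positivity)]
      calc ‖χ (n : ZMod q)‖ * ‖u n‖ ≤ 1 * (n.divisors.card * Real.sqrt n) :=
            mul_le_mul h1 h2 (norm_nonneg _) one_pos.le
        _ ≤ 1 * (C * (n : ℝ) ^ (1 / 2 : ℝ) * Real.sqrt n) := by gcongr
        _ = C * (n : ℝ) ^ (-(3 / 2 : ℝ)) * (n : ℝ) ^ (5 / 2 : ℝ) := by
            rw [Real.sqrt_eq_rpow, one_mul, mul_assoc, mul_assoc, ← Real.rpow_add hn0,
              ← Real.rpow_add hn0]
            norm_num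
  have hta := hterm c hμ.cle
  have htb := hterm μ hμ.mle
  have hsa : LSeriesSummable a (5 / 2) :=
    (Summable.of_nonneg_of_le (fun n => norm_nonneg _) hta hTs).of_norm
  have hsb : LSeriesSummable b (5 / 2) :=
    (Summable.of_nonneg_of_le (fun n => norm_nonneg _) htb hTs).of_norm
  have hconv := LSeries_convolution' hsb hsa
  have hone : LSeries (LSeries.convolution b a) (5 / 2) = 1 := by
    have h1 : LSeries.convolution b a = LSeries.delta := by
      rw [LSeries.convolution_def]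
      funext n
      rcases Nat.eq_zero_or_pos n with rfl | hn
      · simp [LSeries.delta]
      · have h2 : ∀ x ∈ n.divisorsAntidiagonal, b x.1 * a x.2 = χ (n : ZMod q) * (μ x.1 * c x.2) := by
          intro x hx
          have h3 := (Nat.mem_divisorsAntidiagonal.1 hx).1
          simp only [ha, hb]
          rw [← h3, Nat.cast_mul, map_mul]
          ring
        rw [Finset.sum_congr rfl h2, ← Finset.mul_sum, hμ.inv n hn]
        unfold LSeries.delta
        by_cases h4 : n = 1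
        · subst h4
          simp
        · rw [if_neg h4, mul_zero]
    rw [h1, LSeries_delta]
    rfl
  have ha2 : LSeries a (5 / 2) =
      ∑' n : ℕ, χ (n : ZMod q) * cf f n * (n : ℂ) ^ (-((m : ℂ) + 3 / 2)) := by
    unfold LSeries
    refine tsum_congr fun n => ?_
    rcases Nat.eq_zero_or_pos n with rfl | hn
    · rw [LSeries.term_zero, cf_zero, mul_zero, zero_mul]
    · have hn' : (n : ℂ) ≠ 0 := by exact_mod_cast hn.ne'
      rw [LSeries.term_of_ne_zero hn.ne']
      simp only [ha, hc]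
      have h1 : (n : ℂ) ^ (-((m : ℂ) + 3 / 2)) = ((n : ℂ) ^ (m - 1))⁻¹ * ((n : ℂ) ^ (5 / 2 : ℂ))⁻¹ := by
        rw [← Complex.cpow_natCast, ← Complex.cpow_neg, ← Complex.cpow_neg,
          ← Complex.cpow_add _ _ hn']
        congr 1
        rw [Nat.cast_sub hm]
        push_cast
        ring
      rw [h1]
      ring
  have hb2 : ‖LSeries b (5 / 2)‖ ≤ T := by
    unfold LSeries
    have h1 : Summable fun n => ‖LSeries.term b (5 / 2) n‖ :=
      Summable.of_nonneg_of_le (fun n => norm_nonneg _) htb hTs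
    exact (norm_tsum_le_tsum_norm h1).trans (Summable.tsum_le_tsum htb h1 hTs)
  rw [hone, ha2] at hconv
  have h5 := congrArg norm hconv
  rw [norm_one, norm_mul] at h5
  rw [inv_le_iff_one_le_mul₀' (by linarith), h5]
  refine mul_le_mul_of_nonneg_right ?_ (norm_nonneg _)
  linarith

theorem pack (m : ℕ) (hm : 1 ≤ m) (N : ℕ) [NeZero N] (η : DirichletCharacter ℂ N)
    (f : CuspForm (Gamma1 N : Subgroup (GL (Fin 2) ℝ)) (2 * m : ℤ)) (w : ℂ)
    (hw : NNewf m N η f w) :
    ∃ (K : ℝ) (F : (q : ℕ) → DirichletCharacter ℂ q → ℂ → ℂ), 0 < K ∧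
      (∀ (q : ℕ) (χ : DirichletCharacter ℂ q), 1 ≤ q → Nat.Coprime q N → χ.IsPrimitive →
        Differentiable ℂ (F q χ) ∧ (∀ s : ℂ, (m : ℝ) + 1 / 2 < s.re →
          HasProd (fun p : Nat.Primes =>
            (1 - χ ((p : ℕ) : ZMod q) * cf f p * ((p : ℕ) : ℂ) ^ (-s) +
              χ ((p : ℕ) : ZMod q) ^ 2 * η ((p : ℕ) : ZMod N) *
                ((p : ℕ) : ℂ) ^ (2 * (m : ℂ) - 1 - 2 * s))⁻¹) (F q χ s)) ∧
        F q χ ((m : ℂ) + 3 / 2) ≠ 0 ∧
        (analyticOrderNatAt (F q χ) m : ℝ) ≤ K * (1 + Real.log q)) ∧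
      (∀ M : ℕ, 1 ≤ M → ∀ ε : ℝ, 0 < ε → ∃ q0 : ℕ, ∀ q : ℕ, q0 ≤ q → Nat.Coprime q N →
        ∀ χ : DirichletCharacter ℂ q, χ.IsPrimitive → (q : ℝ) ^ (3 / 4 + ε) ≤ orderOf χ →
          F q χ m ≠ 0 ∧ ∃ a : ℕ, Nat.Coprime a (orderOf χ) ∧ a % M = 1 % M ∧
            (χ ^ a).IsPrimitive ∧ (q : ℝ) ^ (-ε) ≤ ‖F q (χ ^ a) m‖) := by
  classical
  have hNn : 0 < N := Nat.pos_of_ne_zero (NeZero.ne N)
  have hN1 : (1 : ℝ) ≤ N := by exact_mod_cast hNn
  have hN0 : (0 : ℝ) < N := by linarith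
  have hsN : 1 ≤ Real.sqrt N := Real.one_le_sqrt.2 hN1
  have hm1 : (1 : ℝ) ≤ m := by exact_mod_cast hm
  have hcoef := Pool.Agent.W804.CY.n_coef
  have htw := Pool.Agent.W597.CYN.n_twist
  have heul := n_eul hcoef
  obtain ⟨μ, hμ⟩ := hcoef m hm N η f w hw
  obtain ⟨A, hA, hlow⟩ := lower m hm f hμ
  obtain ⟨C, hC⟩ := cf_bound heul m hm N η f w hw
  obtain ⟨K, hK, hmel⟩ := mellinB m hm ((m : ℝ) + 1) C (by linarith) (by linarith)
  have hc0 : cf f 0 = 0 := cf_zero f
  -- the functions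
  have hex : ∀ (q : ℕ) (χ : DirichletCharacter ℂ q), ∃ F : ℂ → ℂ,
      (∀ (_ : NeZero q), 1 ≤ q → Nat.Coprime q N → χ.IsPrimitive → Differentiable ℂ F ∧
        (∀ s : ℂ, (m : ℝ) + 1 / 2 < s.re →
          F s = ∑' n : ℕ, χ (n : ZMod q) * cf f n * (n : ℂ) ^ (-s)) ∧
        (∀ X Y : ℝ, 0 < X → 0 < Y → X * Y = N * (q : ℝ) ^ 2 / (4 * Real.pi ^ 2) →
          F m = ∑' n : ℕ, χ (n : ZMod q) * (cf f n / (n : ℂ) ^ (m - 1)) / n *
              (Vk m (n / X) : ℂ) +
            (w * η (q : ZMod N)) * χ (N : ZMod q) *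
              gaussSum χ (ZMod.stdAddChar (N := q)) ^ 2 / q *
            ∑' n : ℕ, (starRingEnd ℂ) (χ (n : ZMod q)) *
              (starRingEnd ℂ) (cf f n / (n : ℂ) ^ (m - 1)) / n * (Vk m (n / Y) : ℂ)) ∧
        ∀ s : ℂ, ‖s - m‖ ≤ 8 → ‖F s‖ ≤ K * (Real.sqrt N * q) ^ 16) := by
    intro q χ
    by_cases h : 1 ≤ q ∧ Nat.Coprime q N ∧ χ.IsPrimitive
    · obtain ⟨h1, h2, h3⟩ := h
      have hNZ : NeZero q := ⟨by omega⟩
      have hq1 : (1 : ℝ) ≤ q := by exact_mod_cast h1
      have hRq : 1 ≤ Real.sqrt N * q := by nlinarith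
      set W : ℂ := (w * η (q : ZMod N)) * χ (N : ZMod q) *
        gaussSum χ (ZMod.stdAddChar (N := q)) ^ 2 / q with hW
      have hWn : ‖W‖ = 1 := by
        have e2 : ‖χ (N : ZMod q)‖ = 1 := by
          have hu : IsUnit (N : ZMod q) := (ZMod.isUnit_iff_coprime N q).2 h2.symm
          have := χ.unit_norm_eq_one hu.unit
          simpa using this
        have e3 : ‖η (q : ZMod N)‖ = 1 := by
          have hu : IsUnit (q : ZMod N) := (ZMod.isUnit_iff_coprime q N).2 h2
          have := η.unit_norm_eq_one hu.unit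
          simpa using this
        have e4 : ‖gaussSum χ (ZMod.stdAddChar (N := q))‖ ^ 2 = q := by
          have f1 := congrArg norm (Pool.Agent.W378.CY.gauss_prod q χ h3)
          have f2 : ‖χ⁻¹ (-1 : ZMod q)‖ = 1 := by
            have hu : IsUnit (-1 : ZMod q) := isUnit_one.neg
            have := χ⁻¹.unit_norm_eq_one hu.unit
            simpa using this
          rw [norm_mul, norm_mul, f2, gauss_conj χ, one_mul, Complex.norm_natCast] at f1
          rw [sq]
          exact f1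
        rw [hW, norm_div, norm_mul, norm_mul, norm_mul, e2, e3, hw.norm, norm_pow, e4,
          Complex.norm_natCast, one_mul, one_mul, one_mul]
        exact div_self (by positivity)
      obtain ⟨F, hF1, hF2, hF3, hF4⟩ := hmel (fun n => χ (n : ZMod q) * cf f n)
        (Real.sqrt N * q) hRq (by rw [hc0, mul_zero]) (fun n hn => hC q χ n hn) W hWn
        (fun t ht => htw m hm N η f w hw q χ h2 h3 t ht)
      refine ⟨F, fun _ _ _ _ => ⟨hF1, fun s hs => ?_, fun X Y hX hY hXY => ?_, hF4⟩⟩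
      · refine Pool.Agent.TH936.HK.ext_series F hF1 (fun n => χ (n : ZMod q) * cf f n) ?_ _
          (fun s hs => (heul m hm N η f w hw q χ s hs).1)
          ((m : ℝ) + 1 + 2) (fun s hs => hF2 s hs) s hs
        simp only [hc0, mul_zero]
      · have hXY' : X * Y = (Real.sqrt N * q) ^ 2 / (4 * Real.pi ^ 2) := by
          rw [hXY, mul_pow, Real.sq_sqrt hN0.le]
        rw [hF3 X Y hX hY hXY']
        have hpw : ∀ n : ℕ, 0 < n → (n : ℂ) ^ m = (n : ℂ) ^ (m - 1) * n := by
          intro n _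
          rw [← pow_succ]
          congr 1
          omega
        congr 1
        · refine tsum_congr fun n => ?_
          rcases Nat.eq_zero_or_pos n with rfl | hn
          · simp only [hc0]; simp
          · have hn' : (n : ℂ) ≠ 0 := by exact_mod_cast hn.ne'
            rw [hpw n hn]
            field_simp
        · congr 1
          refine tsum_congr fun n => ?_
          rcases Nat.eq_zero_or_pos n with rfl | hn
          · simp only [hc0]; simp
          · have hn' : (n : ℂ) ≠ 0 := by exact_mod_cast hn.ne'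
            rw [map_mul, hpw n hn, map_div₀, map_pow, Complex.conj_natCast]
            field_simp
    · exact ⟨fun _ => 0, fun _ h1 h2 h3 => absurd ⟨h1, h2, h3⟩ h⟩
  choose F hF using hex
  -- the order bound
  have hlog : 0 < Real.log (16 / 3) := Real.log_pos (by norm_num)
  set B : ℝ := |Real.log (A * K)| + 16 * Real.log (Real.sqrt N) + 16 with hB
  have hlsN : 0 ≤ Real.log (Real.sqrt N) := Real.log_nonneg hsN
  have hB0 : 0 < B := by
    have := abs_nonneg (Real.log (A * K))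
    rw [hB]; linarith
  refine ⟨B / Real.log (16 / 3), F, by positivity, ?_, ?_⟩
  · intro q χ hq hqN hχ
    have hNZ : NeZero q := ⟨by omega⟩
    have hq1 : (1 : ℝ) ≤ q := by exact_mod_cast hq
    obtain ⟨g1, g2, g3, g4⟩ := hF q χ inferInstance hq hqN hχ
    have hre : ((m : ℂ) + 3 / 2).re = m + 3 / 2 := by
      simp
    have h2 : A⁻¹ ≤ ‖F q χ ((m : ℂ) + 3 / 2)‖ := by
      rw [g2 _ (by rw [hre]; linarith)]
      exact hlow q χ
    refine ⟨g1, fun s hs => ?_, ?_, ?_⟩
    · rw [g2 s hs]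
      exact (heul m hm N η f w hw q χ s hs).2
    · intro h
      rw [h, norm_zero] at h2
      have : 0 < A⁻¹ := by positivity
      linarith
    · set n := analyticOrderNatAt (F q χ) m with hn
      have e0 : ((m : ℂ) + 3 / 2) - m = 3 / 2 := by ring
      have h3 := Pool.Agent.TH940.order_bound (F q χ) g1 m ((m : ℂ) + 3 / 2) (R := 8)
        (M := K * (Real.sqrt N * q) ^ 16)
        (by norm_num) (by rw [e0]; norm_num) g4
      rw [← hn, e0] at h3
      have h4 : ‖(3 / 2 : ℂ)‖ / 8 = 3 / 16 := by norm_num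
      rw [h4] at h3
      have h5 : A⁻¹ ≤ K * (Real.sqrt N * q) ^ 16 * (3 / 16) ^ n := h2.trans h3
      have h6 : (16 / 3 : ℝ) ^ n ≤ A * K * (Real.sqrt N * q) ^ 16 := by
        have h7 : (16 / 3 : ℝ) ^ n * (3 / 16) ^ n = 1 := by
          rw [← mul_pow]; norm_num
        have h8 : 0 < (16 / 3 : ℝ) ^ n := by positivity
        have h9 : 1 ≤ A * (K * (Real.sqrt N * q) ^ 16 * (3 / 16) ^ n) := by
          have := mul_le_mul_of_nonneg_left h5 hA.le
          rwa [mul_inv_cancel₀ hA.ne'] at this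
        calc (16 / 3 : ℝ) ^ n = (16 / 3 : ℝ) ^ n * 1 := (mul_one _).symm
          _ ≤ (16 / 3 : ℝ) ^ n * (A * (K * (Real.sqrt N * q) ^ 16 * (3 / 16) ^ n)) := by gcongr
          _ = A * K * (Real.sqrt N * q) ^ 16 * ((16 / 3 : ℝ) ^ n * (3 / 16) ^ n) := by ring
          _ = _ := by rw [h7, mul_one]
      have h10 := Real.log_le_log (by positivity) h6
      have hsp : 0 < Real.sqrt N := by linarith
      have e10 : Real.log (A * K * (Real.sqrt N * q) ^ 16) =
          Real.log (A * K) + 16 * (Real.log (Real.sqrt N) + Real.log q) := by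
        rw [Real.log_mul (by positivity) (by positivity), Real.log_pow,
          Real.log_mul hsp.ne' (by positivity)]
        norm_num
      rw [Real.log_pow, e10] at h10
      have h11 : 0 ≤ Real.log q := Real.log_nonneg hq1
      rw [div_mul_eq_mul_div, le_div_iff₀ hlog]
      have h12 := le_abs_self (Real.log (A * K))
      have h13 : 0 ≤ |Real.log (A * K)| := abs_nonneg _
      rw [hB]
      nlinarith [mul_nonneg h13 h11, mul_nonneg hlsN h11]
  · intro M hM ε hε
    obtain ⟨D, hD⟩ := Pool.Agent.TH936.HK.h_vk m hm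
    obtain ⟨M1, hM1, heq⟩ := equiv m hm f hC
    have hc1 : (fun n : ℕ => cf f n / (n : ℂ) ^ (m - 1)) 1 = 1 := by
      have := hw.one
      simp [this]
    obtain ⟨q0, h0⟩ := wfinn (Vk m) (1 + D) (Pool.Agent.TH936.HK.vh_of_vw hD) N hNn _ μ hc1 hμ
      (M * M1) (Nat.mul_pos hM hM1) ε hε
    refine ⟨max ⌈q0⌉₊ 1, fun q hq hqN χ hχ hord => ?_⟩
    have hq1 : 1 ≤ q := le_trans (le_max_right _ _) hq
    have hNZ : NeZero q := ⟨by omega⟩
    have hq0 : q0 ≤ q := (Nat.le_ceil q0).trans (by exact_mod_cast le_trans (le_max_left _ _) hq)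
    have hηq : ‖w * η (q : ZMod N)‖ = 1 := by
      have h1 : IsUnit (q : ZMod N) := (ZMod.isUnit_iff_coprime q N).mpr hqN
      rw [norm_mul, hw.norm, one_mul]
      obtain ⟨u, hu⟩ := h1
      rw [← hu]
      exact η.unit_norm_eq_one u
    obtain ⟨a, ha1, ha2, ha3, ha4⟩ := h0 q hq0 hqN (w * η (q : ZMod N)) hηq (fun χ => F q χ m)
      (fun χ hχ X Y hX hY hXY => (hF q χ inferInstance hq1 hqN hχ).2.2.1 X Y hX hY hXY) χ hχ hord
    have hqp : 0 < (q : ℝ) ^ (-ε) := by
      have : (0 : ℝ) < q := by exact_mod_cast hq1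
      positivity
    refine ⟨fun hz => ?_, a, ha1, ?_, ha3, ha4⟩
    · have h1 := heq q (fun χ => F q χ m) (fun χ => (w * η (q : ZMod N)) * χ (N : ZMod q) *
          gaussSum χ (ZMod.stdAddChar (N := q)) ^ 2 / q)
        (fun χ hχ X Y hX hY hXY => (hF q χ inferInstance hq1 hqN hχ).2.2.1 X Y hX hY hXY) χ hχ a ha1
        (by
          have h2 := congrArg (· % M1) ha2
          simpa [Nat.mod_mul_left_mod] using h2) ha3 hz
      rw [h1, norm_zero] at ha4
      linarith
    · have h2 := congrArg (· % M) ha2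
      simpa [Nat.mod_mul_right_mod] using h2

end Pool.Agent.L5helper17.NF
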