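import Mathlib

/-!
# Primitives on the upper half-plane which vanish at `i∞` (helper17)

For a function `F` holomorphic on the upper half-plane which decays exponentially in vertical strips,
`G F z = - ∫_z^{i∞} F(w) dw`.
-/

set_option autoImplicit false

open Complex Filter Topology Set MeasureTheory

namespace Pool.Agent.L5helper17.NF

/-- exponential decay in vertical strips -/
def Dec (F : ℂ → ℂ) : Prop := ∃ c : ℝ, 0 < c ∧ ∀ R : ℝ, 0 < R → ∃ C : ℝ, 0 < C ∧
  ∀ z : ℂ, |z.re| ≤ R → R⁻¹ ≤ z.im → ‖F z‖ ≤ C * Real.exp (-(c * z.im))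

/-- holomorphic on the upper half-plane, with exponential decay in vertical strips -/
structure Good (F : ℂ → ℂ) : Prop where
  diff : DifferentiableOn ℂ F {z : ℂ | 0 < z.im}
  dec : Dec F

/-- `- ∫_z^{i∞} F(w) dw` -/
noncomputable def G (F : ℂ → ℂ) (z : ℂ) : ℂ :=
  -Complex.I * ∫ t in Ioi (0 : ℝ), F (z + t * Complex.I)

lemma isOpen_uhp : IsOpen {z : ℂ | 0 < z.im} := isOpen_lt continuous_const Complex.continuous_im

lemma im_add_mul_I (z : ℂ) (t : ℝ) : (z + t * Complex.I).im = z.im + t := by simp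

lemma re_add_mul_I (z : ℂ) (t : ℝ) : (z + t * Complex.I).re = z.re := by simp

lemma Good.bound {F : ℂ → ℂ} (h : Good F) {z0 : ℂ} (hz0 : 0 < z0.im) :
    ∃ c C : ℝ, 0 < c ∧ 0 < C ∧ ∀ w : ℂ, ‖w - z0‖ ≤ z0.im / 2 → ∀ t : ℝ, 0 ≤ t →
      ‖F (w + t * Complex.I)‖ ≤ C * Real.exp (-(c * t)) := by
  obtain ⟨c, hc, h1⟩ := h.dec
  obtain ⟨C, hC, h2⟩ := h1 (|z0.re| + z0.im / 2 + 2 / z0.im) (by positivity)
  refine ⟨c, C, hc, hC, fun w hw t ht => ?_⟩
  have hre : |w.re - z0.re| ≤ z0.im / 2 := by
    have := Complex.abs_re_le_norm (w - z0)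
    rw [Complex.sub_re] at this
    linarith
  have him : |w.im - z0.im| ≤ z0.im / 2 := by
    have := Complex.abs_im_le_norm (w - z0)
    rw [Complex.sub_im] at this
    linarith
  have h3 : |w.re| ≤ |z0.re| + z0.im / 2 := by
    calc |w.re| = |(w.re - z0.re) + z0.re| := by ring_nf
      _ ≤ |w.re - z0.re| + |z0.re| := abs_add_le _ _
      _ ≤ _ := by linarith
  have h4 : z0.im / 2 ≤ w.im := by
    have := (abs_le.1 him).1
    linarith
  have h5 : (|z0.re| + z0.im / 2 + 2 / z0.im)⁻¹ ≤ z0.im / 2 := by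
    have h6 : 2 / z0.im ≤ |z0.re| + z0.im / 2 + 2 / z0.im := by
      have := abs_nonneg z0.re
      linarith
    calc (|z0.re| + z0.im / 2 + 2 / z0.im)⁻¹ ≤ (2 / z0.im)⁻¹ :=
          inv_anti₀ (by positivity) h6
      _ = z0.im / 2 := by rw [inv_div]
  have h7 := h2 (w + t * Complex.I) (by
    rw [re_add_mul_I]
    have : 0 < 2 / z0.im := by positivity
    linarith) (by rw [im_add_mul_I]; linarith)
  refine h7.trans (mul_le_mul_of_nonneg_left (Real.exp_le_exp.2 ?_) hC.le)
  rw [im_add_mul_I]
  nlinarith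

lemma Good.diffAt {F : ℂ → ℂ} (h : Good F) {z : ℂ} (hz : 0 < z.im) : DifferentiableAt ℂ F z :=
  (h.diff z hz).differentiableAt (isOpen_uhp.mem_nhds hz)

lemma Good.contLine {F : ℂ → ℂ} (h : Good F) {z : ℂ} (hz : 0 < z.im) :
    ContinuousOn (fun t : ℝ => F (z + t * Complex.I)) (Ici 0) := by
  intro t ht
  have ht' : (0 : ℝ) ≤ t := ht
  have h1 : ContinuousAt F (z + t * Complex.I) :=
    (h.diffAt (by rw [im_add_mul_I]; linarith)).continuousAt
  have h2 : ContinuousAt (fun t : ℝ => z + t * Complex.I) t := by fun_prop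
  exact (ContinuousAt.comp (f := fun t : ℝ => z + t * Complex.I) h1 h2).continuousWithinAt

lemma exp_intOn {c : ℝ} (hc : 0 < c) (C : ℝ) :
    IntegrableOn (fun t : ℝ => C * Real.exp (-(c * t))) (Ioi 0) := by
  have h : IntegrableOn (fun t : ℝ => C * Real.exp (-c * t)) (Ioi 0) :=
    (integrableOn_exp_mul_Ioi (a := -c) (by linarith) 0).const_mul C
  refine IntegrableOn.congr_fun h (fun t _ => ?_) measurableSet_Ioi
  simp only [neg_mul]

lemma pre_shift (y : ℝ) : (fun x : ℝ => x + y) ⁻¹' Ioi y = Ioi 0 := by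
  ext x; simp

lemma int_shift (f : ℝ → ℂ) (y : ℝ) : ∫ t in Ioi (0 : ℝ), f (t + y) = ∫ t in Ioi y, f t := by
  have h := (measurePreserving_add_right (volume : Measure ℝ) y).setIntegral_preimage_emb
    (measurableEmbedding_addRight y) f (Ioi y)
  rw [pre_shift] at h
  exact h

lemma intOn_shift (f : ℝ → ℂ) (y : ℝ) (h : IntegrableOn (fun t : ℝ => f (t + y)) (Ioi 0)) :
    IntegrableOn f (Ioi y) := by
  have h2 := (measurePreserving_add_right (volume : Measure ℝ) y).integrableOn_comp_preimage
    (measurableEmbedding_addRight y) (f := f) (s := Ioi y)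
  rw [pre_shift] at h2
  exact h2.1 h

lemma Good.intLine {F : ℂ → ℂ} (h : Good F) {z : ℂ} (hz : 0 < z.im) :
    IntegrableOn (fun t : ℝ => F (z + t * Complex.I)) (Ioi 0) := by
  obtain ⟨c, C, hc, hC, hb⟩ := h.bound hz
  refine Integrable.mono' (exp_intOn hc C) ?_ ?_
  · exact ((h.contLine hz).mono Ioi_subset_Ici_self).aestronglyMeasurable measurableSet_Ioi
  · rw [ae_restrict_iff' measurableSet_Ioi]
    refine Eventually.of_forall fun t ht => ?_
    exact hb z (by simp; positivity) t (le_of_lt ht)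

theorem Good.hasDerivAt {F : ℂ → ℂ} (h : Good F) {z0 : ℂ} (hz0 : 0 < z0.im) :
    HasDerivAt (G F) (F z0) z0 := by
  obtain ⟨c, C, hc, hC, hb⟩ := h.bound hz0
  set r : ℝ := z0.im / 4 with hr
  have hr0 : 0 < r := by positivity
  have hmem : ∀ w ∈ Metric.ball z0 r, ∀ t : ℝ, 0 ≤ t → 0 < (w + t * Complex.I).im := by
    intro w hw t ht
    have h1 := Complex.abs_im_le_norm (w - z0)
    rw [Complex.sub_im] at h1
    have h2 : ‖w - z0‖ < r := by rwa [← dist_eq_norm]
    have h3 := (abs_le.1 h1).1
    rw [im_add_mul_I]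
    linarith
  have hder : ∀ w ∈ Metric.ball z0 r, ∀ t : ℝ, 0 ≤ t →
      ‖deriv F (w + t * Complex.I)‖ ≤ C * Real.exp (-(c * t)) / r := by
    intro w hw t ht
    have h2 : ‖w - z0‖ < r := by rwa [← dist_eq_norm]
    refine Complex.norm_deriv_le_of_forall_mem_sphere_norm_le hr0 ?_ ?_
    · refine (h.diff.mono ?_).diffContOnCl
      rw [closure_ball _ hr0.ne']
      intro v hv
      have h3 : ‖v - (w + t * Complex.I)‖ ≤ r := by
        rw [← dist_eq_norm]; exact hv
      have h4 := Complex.abs_im_le_norm (v - (w + t * Complex.I))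
      rw [Complex.sub_im, im_add_mul_I] at h4
      have h5 := (abs_le.1 h4).1
      have h6 := Complex.abs_im_le_norm (w - z0)
      rw [Complex.sub_im] at h6
      have h7 := (abs_le.1 h6).1
      show 0 < v.im
      linarith
    · intro v hv
      have h3 : ‖v - (w + t * Complex.I)‖ = r := by
        rw [← dist_eq_norm]; exact hv
      have h4 : v = (v - t * Complex.I) + t * Complex.I := by ring
      rw [h4]
      refine hb _ ?_ t ht
      calc ‖v - t * Complex.I - z0‖ = ‖(v - (w + t * Complex.I)) + (w - z0)‖ := by ring_nf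
        _ ≤ ‖v - (w + t * Complex.I)‖ + ‖w - z0‖ := norm_add_le _ _
        _ ≤ z0.im / 2 := by rw [h3]; linarith
  have hcont : ∀ w ∈ Metric.ball z0 r, ContinuousOn (fun t : ℝ => F (w + t * Complex.I)) (Ici 0) := by
    intro w hw
    refine h.contLine ?_
    have := hmem w hw 0 le_rfl
    simpa using this
  have hdc : ContinuousOn (fun t : ℝ => deriv F (z0 + t * Complex.I)) (Ici 0) := by
    have h1 : ContinuousOn (deriv F) {z : ℂ | 0 < z.im} := (h.diff.deriv isOpen_uhp).continuousOn
    refine h1.comp (by fun_prop) ?_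
    intro t ht
    exact hmem z0 (Metric.mem_ball_self hr0) t ht
  have key := hasDerivAt_integral_of_dominated_loc_of_deriv_le
    (μ := volume.restrict (Ioi (0 : ℝ)))
    (F := fun (w : ℂ) (t : ℝ) => F (w + t * Complex.I))
    (F' := fun (w : ℂ) (t : ℝ) => deriv F (w + t * Complex.I)) (x₀ := z0)
    (bound := fun t => C * Real.exp (-(c * t)) / r) (s := Metric.ball z0 r)
    (Metric.ball_mem_nhds z0 hr0)
    (by
      filter_upwards [Metric.ball_mem_nhds z0 hr0] with w hw
      exact ((hcont w hw).mono Ioi_subset_Ici_self).aestronglyMeasurable measurableSet_Ioi)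
    (h.intLine hz0)
    ((hdc.mono Ioi_subset_Ici_self).aestronglyMeasurable measurableSet_Ioi)
    (by
      rw [ae_restrict_iff' measurableSet_Ioi]
      exact Eventually.of_forall fun t ht w hw => hder w hw t (le_of_lt ht))
    ((exp_intOn hc C).div_const r)
    (by
      rw [ae_restrict_iff' measurableSet_Ioi]
      refine Eventually.of_forall fun t ht w hw => ?_
      have h1 : HasDerivAt F (deriv F (w + t * Complex.I)) (w + t * Complex.I) :=
        (h.diffAt (hmem w hw t (le_of_lt ht))).hasDerivAt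
      have h2 : HasDerivAt (fun w : ℂ => w + t * Complex.I) 1 w := by
        simpa using (hasDerivAt_id w).add_const ((t : ℂ) * Complex.I)
      have h3 := h1.comp w h2
      rw [mul_one] at h3
      exact h3)
  have h2 : ∫ t in Ioi (0 : ℝ), deriv F (z0 + t * Complex.I) * Complex.I = 0 - F z0 := by
    have hlim : Tendsto (fun t : ℝ => F (z0 + t * Complex.I)) atTop (𝓝 0) := by
      rw [tendsto_zero_iff_norm_tendsto_zero]
      have h3 : Tendsto (fun t : ℝ => C * Real.exp (-(c * t))) atTop (𝓝 (C * 0)) := by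
        refine Tendsto.const_mul C ?_
        refine Real.tendsto_exp_atBot.comp ?_
        refine tendsto_neg_atTop_atBot.comp ?_
        exact Tendsto.const_mul_atTop hc tendsto_id
      rw [mul_zero] at h3
      refine squeeze_zero' (Eventually.of_forall fun _ => norm_nonneg _) ?_ h3
      filter_upwards [eventually_ge_atTop 0] with t ht
      exact hb z0 (by simp; positivity) t ht
    have h4 := integral_Ioi_of_hasDerivAt_of_tendsto (a := 0)
      (f := fun t : ℝ => F (z0 + t * Complex.I))
      (f' := fun t : ℝ => deriv F (z0 + t * Complex.I) * Complex.I) (m := 0)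
      ((h.contLine hz0) 0 (by simp))
      (fun t ht => by
        have h1 : HasDerivAt F (deriv F (z0 + t * Complex.I)) (z0 + t * Complex.I) :=
          (h.diffAt (hmem z0 (Metric.mem_ball_self hr0) t (le_of_lt ht))).hasDerivAt
        have h2 : HasDerivAt (fun t : ℝ => z0 + t * Complex.I) Complex.I t := by
          have := ((Complex.ofRealCLM.hasDerivAt (x := t)).mul_const Complex.I).const_add z0
          simpa using this
        exact h1.comp t h2)
      (key.1.mul_const Complex.I) hlim
    rw [h4]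
    simp
  have h3 := key.2.const_mul (-Complex.I)
  have h4 : -Complex.I * ∫ t in Ioi (0 : ℝ), deriv F (z0 + t * Complex.I) = F z0 := by
    rw [integral_mul_const] at h2
    linear_combination (-1 : ℂ) * h2
  rw [h4] at h3
  exact h3

lemma G_line (F : ℂ → ℂ) (x y : ℝ) : G F (x + y * Complex.I) =
    -Complex.I * ∫ t in Ioi y, F (x + t * Complex.I) := by
  unfold G
  congr 1
  rw [← int_shift (fun t : ℝ => F (x + t * Complex.I)) y]
  refine setIntegral_congr_fun measurableSet_Ioi fun t _ => ?_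
  congr 1
  push_cast
  ring

lemma Good.tendsto {F : ℂ → ℂ} (h : Good F) (x : ℝ) :
    Tendsto (fun y : ℝ => G F (x + y * Complex.I)) atTop (𝓝 0) := by
  have h1 := h.intLine (z := x + (1 : ℝ) * Complex.I) (by simp)
  have h2 : IntegrableOn (fun t : ℝ => F (x + t * Complex.I)) (Ioi 1) := by
    refine intOn_shift (fun t : ℝ => F (x + t * Complex.I)) 1
      (IntegrableOn.congr_fun h1 (fun t _ => ?_) measurableSet_Ioi)
    congr 1
    push_cast
    ring
  have h4 : Tendsto (fun y : ℝ => ∫ t in Ioi y, F (x + t * Complex.I)) atTop (𝓝 0) := by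
    have h5 := intervalIntegral_tendsto_integral_Ioi 1 h2 tendsto_id
    have h6 : Tendsto (fun y : ℝ => (∫ t in Ioi (1 : ℝ), F (x + t * Complex.I)) -
        ∫ t in (1 : ℝ)..y, F (x + t * Complex.I)) atTop (𝓝 0) := by
      have := (tendsto_const_nhds (x := ∫ t in Ioi (1 : ℝ), F (x + t * Complex.I))).sub h5
      simpa using this
    refine h6.congr' ?_
    filter_upwards [eventually_ge_atTop 1] with y hy
    rw [intervalIntegral.integral_of_le hy, ← Ioc_union_Ioi_eq_Ioi hy,
      setIntegral_union (Set.Ioc_disjoint_Ioi le_rfl) measurableSet_Ioi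
        (h2.mono_set Ioc_subset_Ioi_self) (h2.mono_set (Ioi_subset_Ioi hy))]
    ring
  have h7 := h4.const_mul (-Complex.I)
  rw [mul_zero] at h7
  exact h7.congr fun y => (G_line F x y).symm

end Pool.Agent.L5helper17.NF
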