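import Pool.Agent.L5helper17.NF.An
import Pool.Agent.L5helper17.NF.FG
import Pool.Agent.L5helper17.NF.Gal

/-!
# The central value as a combination of periods (helper17)
-/

set_option autoImplicit false

open Complex Filter Topology Set MeasureTheory UpperHalfPlane MatrixGroups CongruenceSubgroup ZMod

namespace Pool.Agent.L5helper17.NF

open Pool.Agent.W192.CY (cf NInv NNewf N_TWIST N_AFE N_EUL N_COEF Vk)
open Pool.Agent.W440.TW
open Pool.Agent.W108.TW (Th summable_maj)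

/-- the differential form `f(z) (q z - u)^(m-1) dz` -/
noncomputable def HH {N : ℕ} {k : ℤ} (f : CuspForm (Gamma1 N : Subgroup (GL (Fin 2) ℝ)) k)
    (m q : ℕ) (u : ℤ) (z : ℂ) : ℂ := cus f 1 z * ((q : ℂ) * z - u) ^ (m - 1)

lemma HH_isM {N : ℕ} {k : ℤ} (f : CuspForm (Gamma1 N : Subgroup (GL (Fin 2) ℝ)) k)
    (m q : ℕ) (u : ℤ) (n : ℕ) (hn : m - 1 ≤ n) : IsM f n (HH f m q u) := by
  have h1 : ((Polynomial.C (q : ℤ) * Polynomial.X + Polynomial.C (-u)) ^ (m - 1)).natDegree ≤ n := by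
    refine Polynomial.natDegree_pow_le.trans (le_trans ?_ hn)
    calc _ ≤ (m - 1) * 1 := Nat.mul_le_mul_left _ Polynomial.natDegree_linear_le
      _ = m - 1 := mul_one _
  refine (isM_poly f n 1 _ h1).congr fun z _ => ?_
  show HH f m q u z = cus f 1 z * _
  rw [Polynomial.eval₂_pow, Polynomial.eval₂_add, Polynomial.eval₂_mul, Polynomial.eval₂_C,
    Polynomial.eval₂_C, Polynomial.eval₂_X]
  unfold HH
  simp only [eq_intCast]
  push_cast
  ring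

/-- a matrix with given first column -/
lemma exists_col (u : ℤ) (q : ℕ) (h : IsCoprime u (q : ℤ)) : ∃ γ : SL(2, ℤ), γ 0 0 = u ∧
    γ 1 0 = q := by
  obtain ⟨a, b, hab⟩ := h
  refine ⟨⟨!![u, -b; (q : ℤ), a], ?_⟩, rfl, rfl⟩
  rw [Matrix.det_fin_two_of]
  linear_combination hab

lemma HH_line {N : ℕ} {k : ℤ} (f : CuspForm (Gamma1 N : Subgroup (GL (Fin 2) ℝ)) k)
    (m q : ℕ) (hq : q ≠ 0) (u : ℤ) (t : ℝ) (ht : 0 < t) :
    HH f m q u (((u : ℝ) / q : ℝ) + t * Complex.I) =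
      ((q : ℂ) * Complex.I) ^ (m - 1) * ((t : ℂ) ^ (m - 1) * f (pt ((u : ℝ) / q) t ht)) := by
  unfold HH
  have hq' : (q : ℂ) ≠ 0 := by exact_mod_cast hq
  have e1 : (q : ℂ) * ((((u : ℝ) / q : ℝ) : ℂ) + t * Complex.I) - u = (q : ℂ) * Complex.I * t := by
    push_cast
    field_simp
    ring
  have e2 : cus f 1 (((u : ℝ) / q : ℝ) + t * Complex.I) = f (pt ((u : ℝ) / q) t ht) := by
    rw [cus_one]
    congr 1
    rw [← pt_coe _ _ ht, ofComplex_apply]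
  rw [e1, e2, mul_pow]
  ring

/-- the constant -/
noncomputable def Acst (m q : ℕ) (g : ℂ) : ℂ :=
  -Complex.I * ((q : ℂ) * Complex.I) ^ (m - 1) * g * (((m - 1).factorial : ℝ) : ℂ) /
    ((2 * Real.pi : ℝ) : ℂ) ^ m

lemma Acst_ne {m q : ℕ} {g : ℂ} (hq : q ≠ 0) (hg : g ≠ 0) : Acst m q g ≠ 0 := by
  unfold Acst
  have hq' : (q : ℂ) ≠ 0 := by exact_mod_cast hq
  have h1 : (((m - 1).factorial : ℝ) : ℂ) ≠ 0 := by
    exact_mod_cast (Nat.factorial_pos (m - 1)).ne'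
  have h2 : ((2 * Real.pi : ℝ) : ℂ) ≠ 0 := by
    have := Real.pi_pos
    exact_mod_cast (by positivity : (2 * Real.pi : ℝ) ≠ 0)
  exact div_ne_zero (mul_ne_zero (mul_ne_zero (mul_ne_zero (neg_ne_zero.2 Complex.I_ne_zero)
    (pow_ne_zero _ (mul_ne_zero hq' Complex.I_ne_zero))) hg) h1) (pow_ne_zero _ h2)

/-- the sum of the primitives at height `y` -/
lemma sum_G (m : ℕ) (hm : 1 ≤ m) {N : ℕ} [NeZero N] {k : ℤ}
    (f : CuspForm (Gamma1 N : Subgroup (GL (Fin 2) ℝ)) k) (q : ℕ) [NeZero q]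
    (χ : DirichletCharacter ℂ q) (hχ : χ.IsPrimitive) {C A : ℝ}
    (hC : ∀ n : ℕ, 1 ≤ n → ‖χ (n : ZMod q) * cf f n‖ ≤ C * (n : ℝ) ^ A)
    (hG : ∀ u : ℤ, Good (HH f m q u)) {y : ℝ} (hy : 0 < y) :
    ∑ u : (ZMod q)ˣ, χ⁻¹ (u : ZMod q) *
      G (HH f m q ((u : ZMod q).val : ℤ)) ((((((u : ZMod q).val : ℤ) : ℝ) / q : ℝ) : ℂ) +
        y * Complex.I) =
      Acst m q (gaussSum χ⁻¹ (stdAddChar (N := q))) *
        ∑' n : ℕ, χ (n : ZMod q) * (cf f n / (n : ℂ) ^ (m - 1)) / n *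
          (Vk m (n / (1 / (2 * Real.pi * y))) : ℂ) := by
  have hpi := Real.pi_pos
  have hq0 : q ≠ 0 := NeZero.ne q
  have hqr : (0 : ℝ) < q := by exact_mod_cast Nat.pos_of_ne_zero hq0
  have hc0 : cf f 0 = 0 := cf_zero f
  have hb0 : χ ((0 : ℕ) : ZMod q) * cf f 0 = 0 := by rw [hc0, mul_zero]
  set g := gaussSum χ⁻¹ (stdAddChar (N := q)) with hg
  set b : ℕ → ℂ := fun n => χ (n : ZMod q) * cf f n with hb
  -- the theta series
  have hTh : ∀ t : ℝ, ∀ ht : 0 < t, ∑ u : (ZMod q)ˣ, χ⁻¹ (u : ZMod q) *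
      f (pt ((((u : ZMod q).val : ℤ) : ℝ) / q) t ht) = g * Th b (2 * Real.pi) t := by
    intro t ht
    have hy' : 0 < (q * t) / (q : ℝ) := by positivity
    have h1 := (Pool.Agent.W597.CYN.hasSum_twist f χ⁻¹ (inv_primitive χ hχ) (q * t) hy').tsum_eq
    have e1 : (q * t) / (q : ℝ) = t := by field_simp
    have e2 : ∀ u : (ZMod q)ˣ, pt ((((u : ZMod q).val : ℤ) : ℝ) / q) (q * t / q) hy' =
        pt ((((u : ZMod q).val : ℤ) : ℝ) / q) t ht := by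
      intro u
      congr 1
    simp only [e2] at h1
    rw [← h1, Th, ← tsum_mul_left]
    refine tsum_congr fun n => ?_
    rw [inv_inv, e1]
    congr 2
    rw [neg_mul]
  have hint : ∀ u : (ZMod q)ˣ, G (HH f m q ((u : ZMod q).val : ℤ))
      ((((((u : ZMod q).val : ℤ) : ℝ) / q : ℝ) : ℂ) + y * Complex.I) = -Complex.I *
      ∫ t in Ioi y, HH f m q ((u : ZMod q).val : ℤ)
        ((((((u : ZMod q).val : ℤ) : ℝ) / q : ℝ) : ℂ) + t * Complex.I) := by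
    intro u
    exact G_line _ _ _
  have hii : ∀ u : (ZMod q)ˣ, IntegrableOn (fun t : ℝ => HH f m q ((u : ZMod q).val : ℤ)
        ((((((u : ZMod q).val : ℤ) : ℝ) / q : ℝ) : ℂ) + t * Complex.I)) (Ioi y) := by
    intro u
    have h1 := (hG ((u : ZMod q).val : ℤ)).intLine (z := (((((u : ZMod q).val : ℤ) : ℝ) / q : ℝ) : ℂ) +
      y * Complex.I) (by simpa using hy)
    refine intOn_shift _ y (IntegrableOn.congr_fun h1 (fun t _ => ?_) measurableSet_Ioi)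
    congr 1
    push_cast
    ring
  simp only [hint]
  have e3 : ∑ u : (ZMod q)ˣ, χ⁻¹ (u : ZMod q) * (-Complex.I *
      ∫ t in Ioi y, HH f m q ((u : ZMod q).val : ℤ)
        ((((((u : ZMod q).val : ℤ) : ℝ) / q : ℝ) : ℂ) + t * Complex.I)) =
      -Complex.I * ∫ t in Ioi y, ∑ u : (ZMod q)ˣ, χ⁻¹ (u : ZMod q) *
        HH f m q ((u : ZMod q).val : ℤ)
        ((((((u : ZMod q).val : ℤ) : ℝ) / q : ℝ) : ℂ) + t * Complex.I) := by
    rw [integral_finsetSum _ fun u _ => (hii u).const_mul _, Finset.mul_sum]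
    refine Finset.sum_congr rfl fun u _ => ?_
    rw [integral_const_mul]
    ring
  rw [e3]
  have e4 : ∫ t in Ioi y, ∑ u : (ZMod q)ˣ, χ⁻¹ (u : ZMod q) *
        HH f m q ((u : ZMod q).val : ℤ)
        ((((((u : ZMod q).val : ℤ) : ℝ) / q : ℝ) : ℂ) + t * Complex.I) =
      ((q : ℂ) * Complex.I) ^ (m - 1) * g *
        ∫ t in Ioi y, (t : ℂ) ^ (m - 1) * Th b (2 * Real.pi) t := by
    rw [← integral_const_mul]
    refine setIntegral_congr_fun measurableSet_Ioi fun t ht => ?_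
    have ht' : 0 < t := lt_trans hy ht
    show ∑ u : (ZMod q)ˣ, χ⁻¹ (u : ZMod q) *
        HH f m q ((u : ZMod q).val : ℤ)
        ((((((u : ZMod q).val : ℤ) : ℝ) / q : ℝ) : ℂ) + t * Complex.I) = _
    have e5 : ∀ u : (ZMod q)ˣ, χ⁻¹ (u : ZMod q) * HH f m q ((u : ZMod q).val : ℤ)
        ((((((u : ZMod q).val : ℤ) : ℝ) / q : ℝ) : ℂ) + t * Complex.I) =
        ((q : ℂ) * Complex.I) ^ (m - 1) * (t : ℂ) ^ (m - 1) * (χ⁻¹ (u : ZMod q) *
          f (pt ((((u : ZMod q).val : ℤ) : ℝ) / q) t ht')) := by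
      intro u
      rw [HH_line f m q hq0 _ t ht']
      ring
    rw [Finset.sum_congr rfl fun u _ => e5 u, ← Finset.mul_sum, hTh t ht']
    ring
  rw [e4, Pool.Agent.TH936.HK.int_Th m hm hb0 hC (by positivity) hy]
  unfold Acst
  rw [← tsum_mul_left, ← tsum_mul_left, ← tsum_mul_left]
  refine tsum_congr fun n => ?_
  rcases Nat.eq_zero_or_pos n with rfl | hn
  · rw [hc0]; simp
  · have hn' : (n : ℂ) ≠ 0 := by exact_mod_cast hn.ne'
    have hpc : (Real.pi : ℂ) ≠ 0 := by exact_mod_cast hpi.ne'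
    have e6 : (n : ℝ) / (1 / (2 * Real.pi * y)) = 2 * Real.pi * n * y := by
      field_simp
    have e7 : (n : ℂ) ^ m = (n : ℂ) ^ (m - 1) * n := by
      rw [← pow_succ]
      congr 1
      omega
    rw [e6]
    push_cast
    rw [mul_pow (2 * (Real.pi : ℂ)) (n : ℂ) m, e7]
    field_simp

/-- the dual sum tends to zero -/
lemma dual_tendsto (m : ℕ) (hm : 1 ≤ m) {N : ℕ} [NeZero N] {k : ℤ}
    (f : CuspForm (Gamma1 N : Subgroup (GL (Fin 2) ℝ)) k) (q : ℕ) [NeZero q]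
    (χ : DirichletCharacter ℂ q) {C A : ℝ}
    (hC : ∀ n : ℕ, 1 ≤ n → ‖χ (n : ZMod q) * cf f n‖ ≤ C * (n : ℝ) ^ A) {a0 : ℝ} (ha : 0 < a0) :
    Tendsto (fun y : ℝ => ∑' n : ℕ, (starRingEnd ℂ) (χ (n : ZMod q)) *
      (starRingEnd ℂ) (cf f n / (n : ℂ) ^ (m - 1)) / n * (Vk m (n / (a0 * y)) : ℂ)) (𝓝[>] 0)
      (𝓝 0) := by
  have hc0 : cf f 0 = 0 := cf_zero f
  have h0 : (0 : ℂ) = ∑' n : ℕ, (0 : ℂ) := by rw [tsum_zero]
  rw [h0]
  have hbd : ∀ n : ℕ, 1 ≤ n → ‖(starRingEnd ℂ) (χ (n : ZMod q)) *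
      (starRingEnd ℂ) (cf f n / (n : ℂ) ^ (m - 1)) / n‖ ≤ |C| * (n : ℝ) ^ A := by
    intro n hn
    have hn1 : (1 : ℝ) ≤ n := by exact_mod_cast hn
    rw [norm_div, norm_mul, RCLike.norm_conj, RCLike.norm_conj, norm_div, norm_pow,
      Complex.norm_natCast]
    have h1 : ‖χ (n : ZMod q)‖ * ‖cf f n‖ ≤ |C| * (n : ℝ) ^ A := by
      rw [← norm_mul]
      exact (hC n hn).trans (mul_le_mul_of_nonneg_right (le_abs_self C) (by positivity))
    have h2 : (1 : ℝ) ≤ (n : ℝ) ^ (m - 1) := one_le_pow₀ hn1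
    calc ‖χ (n : ZMod q)‖ * (‖cf f n‖ / (n : ℝ) ^ (m - 1)) / n
        ≤ ‖χ (n : ZMod q)‖ * (‖cf f n‖ / 1) / 1 := by gcongr
      _ = ‖χ (n : ZMod q)‖ * ‖cf f n‖ := by ring
      _ ≤ _ := h1
  refine tendsto_tsum_of_dominated_convergence
    (bound := fun n : ℕ => |C| * 2 ^ m * ((n : ℝ) ^ A * Real.exp (-((1 : ℝ) * n)))) ?_ ?_ ?_
  · exact (summable_maj 1 one_pos A).mul_left _
  · intro n
    rcases Nat.eq_zero_or_pos n with rfl | hn
    · refine tendsto_const_nhds.congr fun y => ?_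
      rw [hc0]
      simp
    · have hn' : (0 : ℝ) < n := by exact_mod_cast hn
      have h1 : Tendsto (fun y : ℝ => (n : ℝ) / (a0 * y)) (𝓝[>] 0) atTop := by
        have h2 : Tendsto (fun y : ℝ => (n / a0) * y⁻¹) (𝓝[>] 0) atTop :=
          Tendsto.const_mul_atTop (by positivity) tendsto_inv_nhdsGT_zero
        refine h2.congr fun y => ?_
        rw [div_mul_eq_div_div, div_eq_mul_inv (n / a0) y]
      have h2 := (Pool.Agent.TH936.HK.tendsto_vk m).comp h1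
      have h3 : Tendsto (fun y : ℝ => ((Vk m (n / (a0 * y)) : ℝ) : ℂ)) (𝓝[>] 0) (𝓝 ((0 : ℝ) : ℂ)) :=
        (Complex.continuous_ofReal.tendsto 0).comp h2
      have h4 := h3.const_mul ((starRingEnd ℂ) (χ (n : ZMod q)) *
        (starRingEnd ℂ) (cf f n / (n : ℂ) ^ (m - 1)) / n)
      rw [Complex.ofReal_zero, mul_zero] at h4
      exact h4
  · have hev : ∀ᶠ y : ℝ in 𝓝[>] 0, y < 1 / (2 * a0) := by
      have : ∀ᶠ y : ℝ in 𝓝 0, y < 1 / (2 * a0) := Iio_mem_nhds (by positivity)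
      exact this.filter_mono nhdsWithin_le_nhds
    filter_upwards [hev, self_mem_nhdsWithin] with y hy1 hy0 n
    have hy : (0 : ℝ) < y := hy0
    rcases Nat.eq_zero_or_pos n with rfl | hn
    · rw [hc0]
      simp only [map_div₀, map_zero, zero_div, mul_zero, zero_mul, norm_zero]
      positivity
    · have hn' : (0 : ℝ) < n := by exact_mod_cast hn
      have h1 : 2 * (n : ℝ) ≤ n / (a0 * y) := by
        rw [le_div_iff₀ (by positivity)]
        have h2 : a0 * y ≤ 1 / 2 := by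
          rw [lt_div_iff₀ (by positivity)] at hy1
          linarith
        nlinarith
      have h3 : |Vk m (n / (a0 * y))| ≤ 2 ^ m * Real.exp (-((1 : ℝ) * n)) := by
        rw [abs_of_nonneg (Pool.Agent.TH936.HK.vk_nonneg m (by positivity))]
        refine (Pool.Agent.TH936.HK.vk_le m (by positivity)).trans ?_
        refine mul_le_mul_of_nonneg_left (Real.exp_le_exp.2 ?_) (by positivity)
        linarith
      rw [norm_mul, Complex.norm_real, Real.norm_eq_abs]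
      calc _ ≤ (|C| * (n : ℝ) ^ A) * (2 ^ m * Real.exp (-((1 : ℝ) * n))) :=
            mul_le_mul (hbd n hn) h3 (abs_nonneg _) (by positivity)
        _ = _ := by ring

/-- **the central value as a combination of periods** -/
theorem value (m : ℕ) (hm : 1 ≤ m) {N : ℕ} [NeZero N]
    (f : CuspForm (Gamma1 N : Subgroup (GL (Fin 2) ℝ)) (2 * m : ℤ)) {C A : ℝ}
    (hC : ∀ (q : ℕ) (χ : DirichletCharacter ℂ q) (n : ℕ), 1 ≤ n →
      ‖χ (n : ZMod q) * cf f n‖ ≤ C * (n : ℝ) ^ A) :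
    ∃ s : Set ℂ, s.Finite ∧ ∀ (q : ℕ) [NeZero q], ∃ r : (ZMod q)ˣ → ℂ,
      (∀ u, r u ∈ AddSubgroup.closure s) ∧ ∀ χ : DirichletCharacter ℂ q, χ.IsPrimitive →
        ∀ (W L : ℂ), (∀ X Y : ℝ, 0 < X → 0 < Y → X * Y = N * (q : ℝ) ^ 2 / (4 * Real.pi ^ 2) →
          L = ∑' n : ℕ, χ (n : ZMod q) * (cf f n / (n : ℂ) ^ (m - 1)) / n * (Vk m (n / X) : ℂ) +
            W * ∑' n : ℕ, (starRingEnd ℂ) (χ (n : ZMod q)) *
              (starRingEnd ℂ) (cf f n / (n : ℂ) ^ (m - 1)) / n * (Vk m (n / Y) : ℂ)) →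
        ∑ u : (ZMod q)ˣ, χ⁻¹ (u : ZMod q) * r u =
          Acst m q (gaussSum χ⁻¹ (stdAddChar (N := q))) * L := by
  have hk : (2 * m : ℤ) = ((2 * m - 2 : ℕ) : ℤ) + 2 := by omega
  obtain ⟨s, hs, hs2⟩ := fg f (2 * m - 2) hk
  refine ⟨s, hs, fun q _ => ?_⟩
  have hpi := Real.pi_pos
  have hq0 : q ≠ 0 := NeZero.ne q
  have hqr : (0 : ℝ) < q := by exact_mod_cast Nat.pos_of_ne_zero hq0
  have hN : (0 : ℝ) < N := by exact_mod_cast Nat.pos_of_ne_zero (NeZero.ne N)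
  have hcol : ∀ u : (ZMod q)ˣ, ∃ γ : SL(2, ℤ), γ 0 0 = ((u : ZMod q).val : ℤ) ∧ γ 1 0 = q := by
    intro u
    refine exists_col _ q ?_
    rw [Nat.isCoprime_iff_coprime]
    exact ZMod.val_coe_unit_coprime u
  choose γ hγ1 hγ2 using hcol
  have hM : ∀ u : ℤ, IsM f (2 * m - 2) (HH f m q u) := fun u => HH_isM f m q u _ (by omega)
  refine ⟨fun u => Rr (HH f m q ((u : ZMod q).val : ℤ)) (γ u), fun u => hs2 _ (hM _) _, ?_⟩
  intro χ hχ W L hL
  -- the limit of the sum of the primitives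
  have h1 : Tendsto (fun y : ℝ => ∑ u : (ZMod q)ˣ, χ⁻¹ (u : ZMod q) *
      G (HH f m q ((u : ZMod q).val : ℤ)) ((((((u : ZMod q).val : ℤ) : ℝ) / q : ℝ) : ℂ) +
        y * Complex.I)) (𝓝[>] 0)
      (𝓝 (∑ u : (ZMod q)ˣ, χ⁻¹ (u : ZMod q) * Rr (HH f m q ((u : ZMod q).val : ℤ)) (γ u))) := by
    refine tendsto_finset_sum _ fun u _ => Tendsto.const_mul _ ?_
    have h2 := Rr_lim (hM ((u : ZMod q).val : ℤ)).good ((hM ((u : ZMod q).val : ℤ)).pull hk (γ u)).good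
      (by rw [hγ2]; exact_mod_cast Nat.pos_of_ne_zero hq0)
    rw [hγ1, hγ2] at h2
    exact h2
  have h2 : Tendsto (fun y : ℝ => ∑ u : (ZMod q)ˣ, χ⁻¹ (u : ZMod q) *
      G (HH f m q ((u : ZMod q).val : ℤ)) ((((((u : ZMod q).val : ℤ) : ℝ) / q : ℝ) : ℂ) +
        y * Complex.I)) (𝓝[>] 0)
      (𝓝 (Acst m q (gaussSum χ⁻¹ (stdAddChar (N := q))) * (L - W * 0))) := by
    have h3 := dual_tendsto m hm f q χ (hC q χ) (a0 := N * (q : ℝ) ^ 2 / (2 * Real.pi))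
      (by positivity)
    have h4 := ((h3.const_mul W).const_sub L).const_mul
      (Acst m q (gaussSum χ⁻¹ (stdAddChar (N := q))))
    refine h4.congr' ?_
    filter_upwards [self_mem_nhdsWithin] with y hy0
    have hy : (0 : ℝ) < y := hy0
    rw [sum_G m hm f q χ hχ (hC q χ) (fun u => (hM u).good) hy]
    congr 1
    have h5 := hL (1 / (2 * Real.pi * y)) (N * (q : ℝ) ^ 2 / (2 * Real.pi) * y) (by positivity)
      (by positivity) (by field_simp; ring)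
    rw [h5]
    ring
  have h3 := tendsto_nhds_unique h1 h2
  rw [h3, mul_zero, sub_zero]

/-- **equivariance of the vanishing of the central value** -/
theorem equiv (m : ℕ) (hm : 1 ≤ m) {N : ℕ} [NeZero N]
    (f : CuspForm (Gamma1 N : Subgroup (GL (Fin 2) ℝ)) (2 * m : ℤ)) {C A : ℝ}
    (hC : ∀ (q : ℕ) (χ : DirichletCharacter ℂ q) (n : ℕ), 1 ≤ n →
      ‖χ (n : ZMod q) * cf f n‖ ≤ C * (n : ℝ) ^ A) :
    ∃ M : ℕ, 1 ≤ M ∧ ∀ (q : ℕ) [NeZero q] (L W : DirichletCharacter ℂ q → ℂ),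
      (∀ χ : DirichletCharacter ℂ q, χ.IsPrimitive →
        ∀ X Y : ℝ, 0 < X → 0 < Y → X * Y = N * (q : ℝ) ^ 2 / (4 * Real.pi ^ 2) →
          L χ = ∑' n : ℕ, χ (n : ZMod q) * (cf f n / (n : ℂ) ^ (m - 1)) / n *
              (Vk m (n / X) : ℂ) +
            W χ * ∑' n : ℕ, (starRingEnd ℂ) (χ (n : ZMod q)) *
              (starRingEnd ℂ) (cf f n / (n : ℂ) ^ (m - 1)) / n * (Vk m (n / Y) : ℂ)) →
      ∀ χ : DirichletCharacter ℂ q, χ.IsPrimitive → ∀ a : ℕ, Nat.Coprime a (orderOf χ) →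
        a % M = 1 % M → (χ ^ a).IsPrimitive → L χ = 0 → L (χ ^ a) = 0 := by
  obtain ⟨s, hs, hs2⟩ := value m hm f hC
  obtain ⟨M, hM, hM2⟩ := gal s hs
  refine ⟨M, Nat.pos_of_ne_zero hM, fun q _ L W hL χ hχ a ha haM hχa h0 => ?_⟩
  obtain ⟨r, hr, hr2⟩ := hs2 q
  have h1 := hr2 χ hχ (W χ) (L χ) (hL χ hχ)
  have h2 := hr2 (χ ^ a) hχa (W (χ ^ a)) (L (χ ^ a)) (hL _ hχa)
  rw [h0, mul_zero] at h1
  have h3 := hM2 q χ⁻¹ r hr a (by rw [orderOf_inv]; exact ha) haM h1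
  rw [inv_pow, h2] at h3
  have h4 : Acst m q (gaussSum (χ ^ a)⁻¹ (stdAddChar (N := q))) ≠ 0 :=
    Acst_ne (NeZero.ne q) (gauss_ne_zero _ (inv_primitive _ hχa))
  exact (mul_eq_zero.1 h3).resolve_left h4

end Pool.Agent.L5helper17.NF
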